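import Pool.Agent.R826.CIFSAbs

/-!
# Conformal iterated function systems on the line and their dimension spectra
-/

namespace Pool.Agent.R241.MKV

open Set Filter Topology MeasureTheory ENNReal
open Pool.Agent.R826.CIFS

/-- A conformal iterated function system on `ℝ` (the case `d = 1`). -/
structure IsCIFS {E : Type} (X V : Set ℝ) (u : E → ℝ → ℝ) : Prop where
  countable : Countable E
  nonempty : X.Nonempty
  compact : IsCompact X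
  regular : X = closure (interior X)
  maps : ∀ a, MapsTo (u a) X X
  openV : IsOpen V
  connV : IsConnected V
  bddV : Bornology.IsBounded V
  sub : X ⊆ V
  dist : ∃ δ : ℝ, 0 < δ ∧ ∀ x ∈ X, ∀ y, y ∉ V → δ ≤ |x - y|
  mapsV : ∀ a, MapsTo (u a) V V
  injV : ∀ a, InjOn (u a) V
  openImage : ∀ a, IsOpen (u a '' V)
  smooth : ∀ a, ContDiffOn ℝ 1 (u a) V
  deriv_ne : ∀ a, ∀ x ∈ V, deriv (u a) x ≠ 0
  deriv_lip : ∀ a, ∃ C : ℝ, ∀ x ∈ V, ∀ y ∈ V, |deriv (u a) x - deriv (u a) y| ≤ C * |x - y|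
  cone : ∃ c : ℝ, 0 < c ∧ ∀ x ∈ X, ∀ r ∈ Ioo (0 : ℝ) 1,
    ENNReal.ofReal (c * r) ≤ volume (X ∩ Metric.ball x r)
  osc : ∀ a b, a ≠ b → Disjoint (u a '' interior X) (u b '' interior X)
  contr : ∃ s : ℝ, s < 1 ∧ ∀ a, ∀ x ∈ V, |deriv (u a) x| ≤ s
  small : ∀ ε : ℝ, 0 < ε → {a | ∃ x ∈ V, ε ≤ |deriv (u a) x|}.Finite
  distortion : ∃ C : ℝ, 1 ≤ C ∧ ∀ l : List E, ∀ x ∈ V, ∀ y ∈ V,
    |deriv (wordMap u l) x| ≤ C * |deriv (wordMap u l) y|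

/-- The limit set `Λ_A = π(A^ℕ)`, where `π(ω) = lim u_{ω_1 ⋯ ω_n}(x₀)` for every `x₀ ∈ X`. -/
def limitSet {E : Type} (X : Set ℝ) (u : E → ℝ → ℝ) (A : Set E) : Set ℝ :=
  {x | ∃ ω : ℕ → E, (∀ n, ω n ∈ A) ∧ ∀ x₀ ∈ X,
    Tendsto (fun n : ℕ => wordMap u (List.ofFn fun i : Fin n => ω i) x₀) atTop (𝓝 x)}

/-- The dimension spectrum. -/
def DS {E : Type} (X : Set ℝ) (u : E → ℝ → ℝ) : Set ℝ :=
  {t | 0 ≤ t ∧ ∃ A : Set E, dimH (limitSet X u A) = ENNReal.ofReal t}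

end Pool.Agent.R241.MKV
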