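import Pool.Agent.R826.CIFSAbs

/-!
# Dimension of limit sets of systems of Markov similarity type
-/

namespace Pool.Agent.R241.MKV

open Set Filter Topology MeasureTheory ENNReal
open Pool.Agent.R826.CIFS

/-- Systems on `[0,1]` for which `φ a` has constant slope `w a b` on the image of `φ b`. -/
structure MS {E : Type} (φ : E → ℝ → ℝ) (w : E → E → ℝ) (L : E → ℝ) (s κ : ℝ) : Prop where
  maps : ∀ e, MapsTo (φ e) (Icc 0 1) (Icc 0 1)
  cont : ∀ e, Continuous (φ e)
  wpos : ∀ a b, 0 < w a b
  wle : ∀ a b, w a b ≤ s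
  s0 : 0 < s
  s1 : s < 1
  Lpos : ∀ e, 0 < L e
  Lle : ∀ e, L e ≤ 1
  κpos : 0 < κ
  κle : κ ≤ 1
  lin : ∀ a b, ∀ x ∈ Icc (0 : ℝ) 1, ∀ y ∈ Icc (0 : ℝ) 1,
    φ a (φ b x) - φ a (φ b y) = w a b * (φ b x - φ b y)
  up : ∀ e, ∀ x ∈ Icc (0 : ℝ) 1, ∀ y ∈ Icc (0 : ℝ) 1, |φ e x - φ e y| ≤ L e
  low : ∀ e, ∀ x ∈ Icc (0 : ℝ) 1, ∀ y ∈ Icc (0 : ℝ) 1, κ * L e * |x - y| ≤ |φ e x - φ e y|
  disj : ∀ e e', e ≠ e' → Disjoint (φ e '' Icc 0 1) (φ e' '' Icc 0 1)

/-- The size of a cylinder. -/
def rat {E : Type} (w : E → E → ℝ) (L : E → ℝ) : List E → ℝ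
  | [] => 1
  | [a] => L a
  | a :: b :: l => w a b * rat w L (b :: l)

variable {E : Type} {φ : E → ℝ → ℝ} {w : E → E → ℝ} {L : E → ℝ} {s κ : ℝ}

namespace MS

variable (h : MS φ w L s κ)
include h

theorem wm_maps (l : List E) : MapsTo (wordMap φ l) (Icc 0 1) (Icc 0 1) := by
  induction l with
  | nil => exact fun x hx => hx
  | cons e l ih => exact fun x hx => h.maps e (ih hx)

theorem wm_cont (l : List E) : Continuous (wordMap φ l) := by
  induction l with
  | nil => exact continuous_id
  | cons e l ih => exact (h.cont e).comp ih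

theorem rat_pos (l : List E) : 0 < rat w L l := by
  induction l with
  | nil => exact one_pos
  | cons a l ih =>
    cases l with
    | nil => exact h.Lpos a
    | cons b l => exact mul_pos (h.wpos a b) ih

theorem rat_le (a : E) (l : List E) : rat w L (a :: l) ≤ s ^ l.length := by
  induction l generalizing a with
  | nil => simpa [rat] using h.Lle a
  | cons b l ih =>
    rw [List.length_cons, pow_succ']
    exact mul_le_mul (h.wle a b) (ih b) (h.rat_pos _).le h.s0.le

theorem wm_up (a : E) (l : List E) {x y : ℝ} (hx : x ∈ Icc (0 : ℝ) 1) (hy : y ∈ Icc (0 : ℝ) 1) :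
    |wordMap φ (a :: l) x - wordMap φ (a :: l) y| ≤ rat w L (a :: l) := by
  induction l generalizing a with
  | nil => exact h.up a x hx y hy
  | cons b l ih =>
    have h1 : wordMap φ (a :: b :: l) x - wordMap φ (a :: b :: l) y =
        w a b * (wordMap φ (b :: l) x - wordMap φ (b :: l) y) :=
      h.lin a b _ (h.wm_maps l hx) _ (h.wm_maps l hy)
    rw [h1, abs_mul, abs_of_pos (h.wpos a b)]
    exact mul_le_mul_of_nonneg_left (ih b) (h.wpos a b).le

theorem wm_low (l : List E) {x y : ℝ} (hx : x ∈ Icc (0 : ℝ) 1) (hy : y ∈ Icc (0 : ℝ) 1) :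
    κ * rat w L l * |x - y| ≤ |wordMap φ l x - wordMap φ l y| := by
  induction l with
  | nil =>
    change κ * 1 * |x - y| ≤ |x - y|
    rw [mul_one]
    exact mul_le_of_le_one_left (abs_nonneg _) h.κle
  | cons a l ih =>
    cases l with
    | nil => exact h.low a x hx y hy
    | cons b l =>
      have h1 : wordMap φ (a :: b :: l) x - wordMap φ (a :: b :: l) y =
          w a b * (wordMap φ (b :: l) x - wordMap φ (b :: l) y) :=
        h.lin a b _ (h.wm_maps l hx) _ (h.wm_maps l hy)
      rw [h1, abs_mul, abs_of_pos (h.wpos a b)]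
      have h2 : κ * rat w L (a :: b :: l) * |x - y| =
          w a b * (κ * rat w L (b :: l) * |x - y|) := by
        rw [rat]
        ring
      rw [h2]
      exact mul_le_mul_of_nonneg_left ih (h.wpos a b).le

theorem diam_le (a : E) (l : List E) : Metric.ediam (wordMap φ (a :: l) '' Icc 0 1) ≤
    ENNReal.ofReal (rat w L (a :: l)) := by
  apply Metric.ediam_le
  rintro _ ⟨x, hx, rfl⟩ _ ⟨y, hy, rfl⟩
  rw [edist_dist, Real.dist_eq]
  exact ENNReal.ofReal_le_ofReal (h.wm_up a l hx hy)

end MS

/-- The weight of a word. -/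
noncomputable def Wt (w : E → E → ℝ) (A : Set E) (t : ℝ) (m : E → ℝ≥0∞) : List E → ℝ≥0∞
  | [] => 1
  | [a] => A.indicator m a
  | a :: b :: l => A.indicator (fun _ => ENNReal.ofReal (w a b ^ t) * Wt w A t m (b :: l)) a

theorem sum_Wt (A : Set E) (t : ℝ) (m : E → ℝ≥0∞)
    (hsub : ∀ a ∈ A, ∑' b, A.indicator (fun b => ENNReal.ofReal (w a b ^ t) * m b) b ≤ m a)
    (n : ℕ) (a : E) :
    ∑' v : Fin n → E, Wt w A t m (a :: List.ofFn v) ≤ A.indicator m a := by
  induction n generalizing a with
  | zero =>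
    rw [tsum_eq_single (default : Fin 0 → E)]
    · simp [Wt]
    · intro v hv
      exact absurd (Subsingleton.elim v default) hv
  | succ n ih =>
    rw [← (Fin.consEquiv (fun _ : Fin (n + 1) => E)).tsum_eq,
      ENNReal.tsum_prod (f := fun (b : E) (v : Fin n → E) =>
        Wt w A t m (a :: List.ofFn ((Fin.consEquiv (fun _ : Fin (n + 1) => E)) (b, v))))]
    have h1 : ∀ (b : E) (v : Fin n → E),
        Wt w A t m (a :: List.ofFn ((Fin.consEquiv (fun _ : Fin (n + 1) => E)) (b, v))) =
        A.indicator (fun _ => ENNReal.ofReal (w a b ^ t) * Wt w A t m (b :: List.ofFn v)) a := by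
      intro b v
      have : List.ofFn ((Fin.consEquiv (fun _ : Fin (n + 1) => E)) (b, v)) = b :: List.ofFn v := by
        rw [List.ofFn_succ]
        simp [Fin.consEquiv]
      rw [this]
      rfl
    simp_rw [h1]
    by_cases ha : a ∈ A
    · simp only [indicator_of_mem ha]
      refine le_trans ?_ (hsub a ha)
      apply ENNReal.tsum_le_tsum
      intro b
      rw [ENNReal.tsum_mul_left]
      refine (mul_le_mul_right (ih b) _).trans ?_
      by_cases hb : b ∈ A
      · rw [indicator_of_mem hb, indicator_of_mem hb]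
      · rw [indicator_of_notMem hb, mul_zero]
        exact zero_le
    · simp [indicator_of_notMem ha]

theorem Wt_ge (h : MS φ w L s κ) (A : Set E) {t c : ℝ} (_hc : 0 < c) (m : E → ℝ≥0∞)
    (hm : ∀ a ∈ A, ENNReal.ofReal (c * L a ^ t) ≤ m a) (a : E) (l : List E) (ha : a ∈ A)
    (hl : ∀ b ∈ l, b ∈ A) :
    ENNReal.ofReal (c * rat w L (a :: l) ^ t) ≤ Wt w A t m (a :: l) := by
  induction l generalizing a with
  | nil =>
    rw [Wt, indicator_of_mem ha]
    exact hm a ha
  | cons b l ih =>
    rw [Wt, indicator_of_mem ha]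
    have h1 := ih b (hl b List.mem_cons_self) (fun x hx => hl x (List.mem_cons_of_mem _ hx))
    have h2 : c * rat w L (a :: b :: l) ^ t = w a b ^ t * (c * rat w L (b :: l) ^ t) := by
      rw [rat, Real.mul_rpow (h.wpos a b).le (h.rat_pos _).le]
      ring
    rw [h2, ENNReal.ofReal_mul (Real.rpow_nonneg (h.wpos a b).le t)]
    exact mul_le_mul_right h1 _

/-- Upper bound. -/
theorem upper [Countable E] (h : MS φ w L s κ) (A : Set E) {t c : ℝ} (ht : 0 < t) (hc : 0 < c)
    (m : E → ℝ≥0∞) (hm : ∀ a ∈ A, ENNReal.ofReal (c * L a ^ t) ≤ m a)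
    (hsum : ∑' a, A.indicator m a ≠ ∞)
    (hsub : ∀ a ∈ A, ∑' b, A.indicator (fun b => ENNReal.ofReal (w a b ^ t) * m b) b ≤ m a) :
    dimH (limSet (Icc 0 1) φ A) ≤ ENNReal.ofReal t := by
  classical
  set M := ∑' a, A.indicator m a with hM
  have hc' : ENNReal.ofReal c ≠ 0 := by
    rw [ne_eq, ENNReal.ofReal_eq_zero, not_le]
    exact hc
  have key : μH[t] (limSet (Icc 0 1) φ A) ≤ (ENNReal.ofReal c)⁻¹ * M := by
    refine (Measure.hausdorffMeasure_le_liminf_tsum (β := ℕ) (ι := fun n => Fin (n + 1) → E) t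
      (limSet (Icc 0 1) φ A) (l := atTop) (fun n => ENNReal.ofReal (s ^ n)) ?_
      (fun n v => if (∀ i, v i ∈ A) then wordMap φ (List.ofFn v) '' Icc 0 1 else ∅) ?_ ?_).trans ?_
    · rw [← ENNReal.ofReal_zero]
      apply ENNReal.tendsto_ofReal
      exact tendsto_pow_atTop_nhds_zero_of_lt_one h.s0.le h.s1
    · refine Eventually.of_forall fun n v => ?_
      split_ifs
      · rw [List.ofFn_succ]
        refine (h.diam_le _ _).trans (ENNReal.ofReal_le_ofReal ?_)
        have := h.rat_le (v 0) (List.ofFn fun i : Fin n => v i.succ)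
        rwa [List.length_ofFn] at this
      · simp
    · refine Eventually.of_forall fun n x hx => ?_
      obtain ⟨ω, hω, hx⟩ := hx
      refine mem_iUnion.mpr ⟨fun i : Fin (n + 1) => ω i, ?_⟩
      rw [if_pos (fun i : Fin (n + 1) => hω i)]
      exact hx (n + 1)
    · refine liminf_le_of_le (by isBoundedDefault) ?_
      intro c0 hc0
      obtain ⟨n, hn⟩ := hc0.exists
      refine hn.trans ?_
      calc ∑' v : Fin (n + 1) → E, Metric.ediam
            (if (∀ i, v i ∈ A) then wordMap φ (List.ofFn v) '' Icc 0 1 else ∅) ^ t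
          ≤ ∑' v : Fin (n + 1) → E, (ENNReal.ofReal c)⁻¹ * Wt w A t m (List.ofFn v) := by
            apply ENNReal.tsum_le_tsum
            intro v
            split_ifs with hv
            · rw [List.ofFn_succ]
              refine (ENNReal.rpow_le_rpow (h.diam_le _ _) ht.le).trans ?_
              rw [ENNReal.ofReal_rpow_of_pos (h.rat_pos _)]
              have h1 := Wt_ge h A hc m hm (v 0) (List.ofFn fun i : Fin n => v i.succ) (hv 0) (by
                intro b hb
                obtain ⟨i, rfl⟩ := List.mem_ofFn.mp hb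
                exact hv _)
              rw [ENNReal.ofReal_mul hc.le] at h1
              calc ENNReal.ofReal (rat w L (v 0 :: List.ofFn fun i : Fin n => v i.succ) ^ t)
                  = (ENNReal.ofReal c)⁻¹ * (ENNReal.ofReal c *
                    ENNReal.ofReal (rat w L (v 0 :: List.ofFn fun i : Fin n => v i.succ) ^ t)) := by
                    rw [← mul_assoc, ENNReal.inv_mul_cancel hc' ENNReal.ofReal_ne_top, one_mul]
                _ ≤ _ := mul_le_mul_right h1 _
            · simp [ht]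
        _ = (ENNReal.ofReal c)⁻¹ * ∑' v : Fin (n + 1) → E, Wt w A t m (List.ofFn v) :=
            ENNReal.tsum_mul_left
        _ ≤ (ENNReal.ofReal c)⁻¹ * M := by
            apply mul_le_mul_right
            rw [← (Fin.consEquiv (fun _ : Fin (n + 1) => E)).tsum_eq,
              ENNReal.tsum_prod (f := fun (b : E) (v : Fin n → E) =>
                Wt w A t m (List.ofFn ((Fin.consEquiv (fun _ : Fin (n + 1) => E)) (b, v))))]
            rw [hM]
            apply ENNReal.tsum_le_tsum
            intro a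
            refine le_trans (le_of_eq ?_) (sum_Wt A t m hsub n a)
            congr 1
            funext v
            congr 1
            rw [List.ofFn_succ]
            simp [Fin.consEquiv]
  have hfin : μH[((t.toNNReal : NNReal) : ℝ)] (limSet (Icc 0 1) φ A) ≠ ∞ := by
    rw [Real.coe_toNNReal t ht.le]
    exact ne_top_of_le_ne_top (ENNReal.mul_ne_top (ENNReal.inv_ne_top.mpr hc') hsum) key
  exact dimH_le_of_hausdorffMeasure_ne_top hfin

end Pool.Agent.R241.MKV
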