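import Pool.Agent.R241.MKV.M1

/-!
# Lower bound for the dimension of limit sets of systems of Markov similarity type
-/

namespace Pool.Agent.R241.MKV

open Set Filter Topology MeasureTheory ENNReal
open Pool.Agent.R826.CIFS

variable {E : Type} {φ : E → ℝ → ℝ} {w : E → E → ℝ} {L : E → ℝ} {s κ : ℝ}

theorem exists_gap' (h : MS φ w L s κ) (F : Finset E) :
    ∃ g > 0, ∀ e ∈ F, ∀ e' ∈ F, e ≠ e' → ∀ u ∈ Icc (0 : ℝ) 1, ∀ v ∈ Icc (0 : ℝ) 1,
      g ≤ |φ e u - φ e' v| := by
  classical
  have hpair : ∀ e e' : E, e ≠ e' → ∃ g > 0, ∀ u ∈ Icc (0 : ℝ) 1, ∀ v ∈ Icc (0 : ℝ) 1,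
      g ≤ |φ e u - φ e' v| := by
    intro e e' hne
    have hK : ∀ e, IsCompact (φ e '' Icc 0 1) := fun e => isCompact_Icc.image (h.cont e)
    obtain ⟨g, hg, hsep⟩ := Metric.exists_pos_forall_lt_edist (hK e) (hK e').isClosed
      (h.disj e e' hne)
    refine ⟨g, by exact_mod_cast hg, fun u hu v hv => ?_⟩
    have := hsep (φ e u) ⟨u, hu, rfl⟩ (φ e' v) ⟨v, hv, rfl⟩
    rw [edist_dist, Real.dist_eq, ← ENNReal.ofReal_coe_nnreal] at this
    exact ((ENNReal.ofReal_lt_ofReal_iff_of_nonneg g.coe_nonneg).mp this).le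
  choose! γ hγ0 hγ using hpair
  have hmin : ∀ S : Finset (E × E), ∃ g > 0, ∀ x ∈ S, x.1 ≠ x.2 → g ≤ γ x.1 x.2 := by
    intro S
    induction S using Finset.induction_on with
    | empty => exact ⟨1, one_pos, by simp⟩
    | insert a s _ ih =>
      obtain ⟨g, hg, hs⟩ := ih
      by_cases ha : a.1 = a.2
      · refine ⟨g, hg, fun x hx hne => ?_⟩
        rcases Finset.mem_insert.mp hx with rfl | hx
        · exact absurd ha hne
        · exact hs x hx hne
      · refine ⟨min g (γ a.1 a.2), lt_min hg (hγ0 _ _ ha), fun x hx hne => ?_⟩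
        rcases Finset.mem_insert.mp hx with rfl | hx
        · exact min_le_right _ _
        · exact (min_le_left _ _).trans (hs x hx hne)
  obtain ⟨g, hg, hs⟩ := hmin (F ×ˢ F)
  refine ⟨g, hg, fun e he e' he' hne u hu v hv => ?_⟩
  exact (hs (e, e') (Finset.mem_product.mpr ⟨he, he'⟩) hne).trans (hγ e e' hne u hu v hv)

theorem rat_ofFn (ω : ℕ → E) (n : ℕ) :
    rat w L (List.ofFn fun i : Fin (n + 1) => ω i) =
      (∏ i ∈ Finset.range n, w (ω i) (ω (i + 1))) * L (ω n) := by
  induction n generalizing ω with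
  | zero => simp [rat]
  | succ n ih =>
    have h1 : (List.ofFn fun i : Fin (n + 1 + 1) => ω i) =
        ω 0 :: List.ofFn fun i : Fin (n + 1) => ω (i + 1) := by
      rw [List.ofFn_succ]
      simp
    have h2 := ih (fun i => ω (i + 1))
    have h3 : (List.ofFn fun i : Fin (n + 1) => ω (i + 1)) =
        ω 1 :: List.ofFn fun i : Fin n => ω (i + 1 + 1) := by
      rw [List.ofFn_succ]
      simp
    rw [h1, h3, rat, ← h3, h2, Finset.prod_range_succ']
    simp only [zero_add]
    ring

/-- The transition weights. -/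
noncomputable def pp (w : E → E → ℝ) (t : ℝ) (m : E → ℝ) (F' : Finset E) :
    Option E → E → ℝ
  | none, b => m b / ∑ c ∈ F', m c
  | some a, b => w a b ^ t * m b / ∑ c ∈ F', w a c ^ t * m c

/-- Lower bound. -/
theorem lower (h : MS φ w L s κ) (F' : Finset E) (hne : F'.Nonempty) {t : ℝ} (ht : 0 < t)
    (m : E → ℝ) (hm : ∀ a ∈ F', 0 < m a)
    (hsup : ∀ a ∈ F', m a ≤ ∑ b ∈ F', w a b ^ t * m b) (F : Set E) (hF : (F' : Set E) ⊆ F) :
    ENNReal.ofReal t ≤ dimH (limSet (Icc 0 1) φ F) := by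
  classical
  obtain ⟨e₀, he₀⟩ := id hne
  have : Nonempty E := ⟨e₀⟩
  have hZ0 : 0 < ∑ c ∈ F', m c := Finset.sum_pos hm hne
  have hwt : ∀ a b, 0 < w a b ^ t := fun a b => Real.rpow_pos_of_pos (h.wpos a b) t
  have hZa : ∀ a, 0 < ∑ c ∈ F', w a c ^ t * m c := fun a =>
    Finset.sum_pos (fun c hc => mul_pos (hwt a c) (hm c hc)) hne
  have hp0 : ∀ st, ∀ b ∈ F', 0 < pp w t m F' st b := by
    intro st b hb
    cases st with
    | none => exact div_pos (hm b hb) hZ0
    | some a => exact div_pos (mul_pos (hwt a b) (hm b hb)) (hZa a)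
  have hpsum : ∀ st, ∑ b ∈ F', pp w t m F' st b = 1 := by
    intro st
    cases st with
    | none =>
      simp only [pp]
      rw [← Finset.sum_div, div_self hZ0.ne']
    | some a =>
      simp only [pp]
      rw [← Finset.sum_div, div_self (hZa a).ne']
  have hcum : ∀ st, ∃ c : E → ℝ, ∀ y ∈ Ico (0 : ℝ) 1, ∃ e ∈ F', ∃ y' ∈ Ico (0 : ℝ) 1,
      y = c e + pp w t m F' st e * y' := by
    intro st
    have := cum F' (pp w t m F' st) (hp0 st)
    rwa [hpsum st] at this
  choose c hc using hcum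
  choose! dig hdig T hT hTeq using hc
  -- the states
  set step : Option E × ℝ → Option E × ℝ := fun q => (some (dig q.1 q.2), T q.1 q.2) with hstep
  set stt : ℝ → ℕ → Option E × ℝ := fun y n => step^[n] (none, y) with hstt
  have hst0 : ∀ y, stt y 0 = (none, y) := fun y => rfl
  have hsts : ∀ y n, stt y (n + 1) = step (stt y n) := by
    intro y n
    rw [hstt]
    simp only [Function.iterate_succ_apply']
  have hTn : ∀ (n : ℕ) (y : ℝ), y ∈ Ico (0 : ℝ) 1 → (stt y n).2 ∈ Ico (0 : ℝ) 1 := by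
    intro n
    induction n with
    | zero => exact fun y hy => hy
    | succ n ih =>
      intro y hy
      rw [hsts]
      exact hT _ _ (ih y hy)
  set om : ℝ → ℕ → E := fun y n => dig (stt y n).1 (stt y n).2 with hom
  have hom' : ∀ (n : ℕ) (y : ℝ), y ∈ Ico (0 : ℝ) 1 → om y n ∈ F' := fun n y hy =>
    hdig _ _ (hTn n y hy)
  have hfst : ∀ y n, (stt y (n + 1)).1 = some (om y n) := by
    intro y n
    rw [hsts]
  have hpt : ∀ y : ℝ, ∃ x : ℝ, ∀ n : ℕ,
      x ∈ wordMap φ (List.ofFn fun i : Fin n => om y i) '' Icc 0 1 := by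
    intro y
    have hne := IsCompact.nonempty_iInter_of_sequence_nonempty_isCompact_isClosed
      (fun n : ℕ => wordMap φ (List.ofFn fun i : Fin n => om y i) '' Icc 0 1)
      (fun n => by
        rintro _ ⟨x, hx, rfl⟩
        refine ⟨φ (om y n) x, h.maps _ hx, ?_⟩
        rw [wordMap_ofFn_succ])
      (fun n => ⟨_, ⟨0, by norm_num, rfl⟩⟩)
      (isCompact_Icc.image (h.wm_cont _))
      (fun n => (isCompact_Icc.image (h.wm_cont _)).isClosed)
    obtain ⟨x, hx⟩ := hne
    exact ⟨x, fun n => mem_iInter.mp hx n⟩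
  choose pt hpt using hpt
  obtain ⟨g, hg, hgap⟩ := exists_gap' h F'
  -- products along the digits
  set Q : ℝ → ℕ → ℝ := fun y n => ∏ i ∈ Finset.range n, pp w t m F' (stt y i).1 (om y i) with hQ
  have hagree : ∀ (n : ℕ) (y y' : ℝ), y ∈ Ico (0 : ℝ) 1 → y' ∈ Ico (0 : ℝ) 1 →
      (∀ i < n, om y i = om y' i) →
      (stt y n).1 = (stt y' n).1 ∧ y - y' = Q y n * ((stt y n).2 - (stt y' n).2) := by
    intro n
    induction n with
    | zero =>
      intro y y' _ _ _
      refine ⟨rfl, ?_⟩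
      simp [hQ, hst0]
    | succ n ih =>
      intro y y' hy hy' hag
      obtain ⟨h1, h2⟩ := ih y y' hy hy' (fun i hi => hag i (by omega))
      have e3 : om y n = om y' n := hag n (by omega)
      refine ⟨by rw [hfst, hfst, e3], ?_⟩
      rw [h2, hQ]
      simp only
      rw [Finset.prod_range_succ, mul_assoc]
      congr 1
      have e1 := hTeq (stt y n).1 (stt y n).2 (hTn n y hy)
      have e2 := hTeq (stt y' n).1 (stt y' n).2 (hTn n y' hy')
      rw [← h1] at e2
      have e3' : dig (stt y n).1 (stt y' n).2 = dig (stt y n).1 (stt y n).2 := by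
        have : om y' n = dig (stt y n).1 (stt y' n).2 := by rw [h1]
        rw [← this, ← e3]
      rw [e3'] at e2
      rw [hsts, hsts]
      change (stt y n).2 - (stt y' n).2 = pp w t m F' (stt y n).1 (dig (stt y n).1 (stt y n).2) *
        (T (stt y n).1 (stt y n).2 - T (stt y' n).1 (stt y' n).2)
      rw [← h1, mul_sub]
      linarith
  have hQpos : ∀ (n : ℕ) (y : ℝ), y ∈ Ico (0 : ℝ) 1 → 0 < Q y n := fun n y hy =>
    Finset.prod_pos fun i _ => hp0 _ _ (hom' i y hy)
  -- the comparison constant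
  obtain ⟨C, hC0, hC⟩ : ∃ C : ℝ, 0 < C ∧ ∀ a ∈ F', m a / (∑ c ∈ F', m c) ≤ C * L a ^ t := by
    refine ⟨∑ a ∈ F', m a / (∑ c ∈ F', m c) / L a ^ t, ?_, ?_⟩
    · apply Finset.sum_pos _ hne
      intro a ha
      exact div_pos (div_pos (hm a ha) hZ0) (Real.rpow_pos_of_pos (h.Lpos a) t)
    · intro a ha
      rw [← div_le_iff₀ (Real.rpow_pos_of_pos (h.Lpos a) t)]
      exact Finset.single_le_sum (f := fun a => m a / (∑ c ∈ F', m c) / L a ^ t)
        (fun b hb => (div_pos (div_pos (hm b hb) hZ0)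
          (Real.rpow_pos_of_pos (h.Lpos b) t)).le) ha
  have hQtel : ∀ (n : ℕ) (y : ℝ), y ∈ Ico (0 : ℝ) 1 →
      Q y (n + 1) ≤ (∏ i ∈ Finset.range n, w (om y i) (om y (i + 1))) ^ t *
        (m (om y n) / ∑ c ∈ F', m c) := by
    intro n y hy
    induction n with
    | zero => simp [hQ, hst0, pp]
    | succ n ih =>
      have h1 : Q y (n + 1 + 1) = Q y (n + 1) * pp w t m F' (stt y (n + 1)).1 (om y (n + 1)) := by
        rw [hQ]
        simp only
        rw [Finset.prod_range_succ]
      rw [h1, hfst, pp, Finset.prod_range_succ, Real.mul_rpow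
        (Finset.prod_nonneg fun i _ => (h.wpos _ _).le) (h.wpos _ _).le]
      set a := om y n with ha
      set b := om y (n + 1) with hb
      have hma := hm a (hom' n y hy)
      have hmb := hm b (hom' (n + 1) y hy)
      have hPpos : 0 ≤ (∏ i ∈ Finset.range n, w (om y i) (om y (i + 1))) ^ t :=
        Real.rpow_nonneg (Finset.prod_nonneg fun i _ => (h.wpos _ _).le) t
      calc Q y (n + 1) * (w a b ^ t * m b / ∑ c ∈ F', w a c ^ t * m c)
          ≤ ((∏ i ∈ Finset.range n, w (om y i) (om y (i + 1))) ^ t * (m a / ∑ c ∈ F', m c)) *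
            (w a b ^ t * m b / m a) := by
            apply mul_le_mul ih _ (div_pos (mul_pos (hwt a b) hmb) (hZa a)).le
              (mul_nonneg hPpos (div_pos hma hZ0).le)
            exact div_le_div_of_nonneg_left (mul_pos (hwt a b) hmb).le hma
              (hsup a (hom' n y hy))
        _ = _ := by
            field_simp
  have hQle : ∀ (n : ℕ) (y : ℝ), y ∈ Ico (0 : ℝ) 1 →
      Q y n ≤ (C + 1) * rat w L (List.ofFn fun i : Fin n => om y i) ^ t := by
    intro n y hy
    cases n with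
    | zero =>
      simp [hQ, rat]
      linarith
    | succ n =>
      refine (hQtel n y hy).trans ?_
      rw [rat_ofFn, Real.mul_rpow (Finset.prod_nonneg fun i _ => (h.wpos _ _).le) (h.Lpos _).le]
      have hPpos : 0 ≤ (∏ i ∈ Finset.range n, w (om y i) (om y (i + 1))) ^ t :=
        Real.rpow_nonneg (Finset.prod_nonneg fun i _ => (h.wpos _ _).le) t
      have h1 := hC (om y n) (hom' n y hy)
      have h2 : 0 < L (om y n) ^ t := Real.rpow_pos_of_pos (h.Lpos _) t
      calc (∏ i ∈ Finset.range n, w (om y i) (om y (i + 1))) ^ t * (m (om y n) / ∑ c ∈ F', m c)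
          ≤ (∏ i ∈ Finset.range n, w (om y i) (om y (i + 1))) ^ t * ((C + 1) * L (om y n) ^ t) := by
            apply mul_le_mul_of_nonneg_left _ hPpos
            nlinarith
        _ = _ := by ring
  have hle1 : ∀ (n : ℕ) (y y' : ℝ), y ∈ Ico (0 : ℝ) 1 → y' ∈ Ico (0 : ℝ) 1 →
      (∀ i < n, om y i = om y' i) →
      |y - y'| ≤ (C + 1) * rat w L (List.ofFn fun i : Fin n => om y i) ^ t := by
    intro n y y' hy hy' hag
    rw [(hagree n y y' hy hy' hag).2, abs_mul, abs_of_pos (hQpos n y hy)]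
    have h1 := hTn n y hy
    have h2 := hTn n y' hy'
    have h3 : |(stt y n).2 - (stt y' n).2| ≤ 1 := by
      rw [abs_le]; constructor <;> linarith [h1.1, h1.2, h2.1, h2.2]
    calc _ ≤ Q y n * 1 := mul_le_mul_of_nonneg_left h3 (hQpos n y hy).le
      _ = Q y n := mul_one _
      _ ≤ _ := hQle n y hy
  have hκ := h.κpos
  -- main estimate
  have hmain : ∀ y ∈ Ico (0 : ℝ) 1, ∀ y' ∈ Ico (0 : ℝ) 1,
      |y - y'| ≤ (C + 1) * (|pt y - pt y'| / (κ * g)) ^ t := by
    intro y hy y' hy'
    by_cases hall : ∀ n, om y n = om y' n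
    · have h1 : Tendsto (fun n : ℕ => (C + 1) * (s ^ n) ^ t) atTop (𝓝 ((C + 1) * 0)) := by
        have h2 : Tendsto (fun n : ℕ => s ^ n) atTop (𝓝 0) :=
          tendsto_pow_atTop_nhds_zero_of_lt_one h.s0.le h.s1
        have h3 := h2.rpow_const (p := t) (Or.inr ht.le)
        rw [Real.zero_rpow ht.ne'] at h3
        exact h3.const_mul _
      rw [mul_zero] at h1
      have h4 : |y - y'| ≤ 0 := by
        refine ge_of_tendsto' h1 fun n => ?_
        refine (hle1 (n + 1) y y' hy hy' (fun i _ => hall i)).trans ?_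
        apply mul_le_mul_of_nonneg_left _ (by linarith)
        apply Real.rpow_le_rpow (h.rat_pos _).le _ ht.le
        rw [List.ofFn_succ]
        have := h.rat_le (om y (0 : Fin (n + 1))) (List.ofFn fun i : Fin n => om y (i.succ : Fin (n + 1)))
        rwa [List.length_ofFn] at this
      refine h4.trans (mul_nonneg (by linarith) (Real.rpow_nonneg ?_ t))
      exact div_nonneg (abs_nonneg _) (mul_pos hκ hg).le
    · push Not at hall
      have hfind := Nat.find_spec hall
      have hmin : ∀ i < Nat.find hall, om y i = om y' i := fun i hi => by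
        by_contra hcon
        exact Nat.find_min hall hi hcon
      set n := Nat.find hall with hn
      refine (hle1 n y y' hy hy' hmin).trans ?_
      apply mul_le_mul_of_nonneg_left _ (by linarith)
      apply Real.rpow_le_rpow (h.rat_pos _).le _ ht.le
      rw [le_div_iff₀ (mul_pos hκ hg)]
      obtain ⟨u, hu, hux⟩ := hpt y (n + 1)
      obtain ⟨v, hv, hvx⟩ := hpt y' (n + 1)
      rw [wordMap_ofFn_succ] at hux hvx
      have hsame : (List.ofFn fun i : Fin n => om y' i) = List.ofFn fun i : Fin n => om y i := by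
        congr 1
        funext i
        exact (hmin i i.2).symm
      rw [hsame] at hvx
      rw [← hux, ← hvx]
      refine le_trans ?_ (h.wm_low _ (h.maps _ hu) (h.maps _ hv))
      have h5 := hgap _ (hom' n y hy) _ (hom' n y' hy') hfind u hu v hv
      calc rat w L (List.ofFn fun i : Fin n => om y i) * (κ * g)
          = κ * rat w L (List.ofFn fun i : Fin n => om y i) * g := by ring
        _ ≤ _ := mul_le_mul_of_nonneg_left h5 (mul_pos hκ (h.rat_pos _)).le
  -- the Hölder inverse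
  have hinj : InjOn pt (Ico (0 : ℝ) 1) := by
    intro y hy y' hy' heq
    have := hmain y hy y' hy'
    rw [heq, sub_self, abs_zero, zero_div, Real.zero_rpow ht.ne', mul_zero] at this
    have h0 : |y - y'| = 0 := le_antisymm this (abs_nonneg _)
    exact sub_eq_zero.mp (abs_eq_zero.mp h0)
  set f := Function.invFunOn pt (Ico (0 : ℝ) 1) with hf
  have hfpt : ∀ y ∈ Ico (0 : ℝ) 1, f (pt y) = y := fun y hy => hinj.leftInvOn_invFunOn hy
  have hhold : HolderOnWith ((C + 1) * (1 / (κ * g)) ^ t).toNNReal t.toNNReal f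
      (pt '' Ico (0 : ℝ) 1) := by
    rintro _ ⟨y, hy, rfl⟩ _ ⟨y', hy', rfl⟩
    rw [hfpt y hy, hfpt y' hy', edist_dist, edist_dist, Real.dist_eq, Real.dist_eq,
      Real.coe_toNNReal t ht.le]
    rw [ENNReal.ofReal_rpow_of_nonneg (abs_nonneg _) ht.le]
    rw [← ENNReal.ofReal]
    rw [← ENNReal.ofReal_mul (by positivity)]
    apply ENNReal.ofReal_le_ofReal
    refine (hmain y hy y' hy').trans (le_of_eq ?_)
    rw [mul_assoc, ← Real.mul_rpow (by positivity) (abs_nonneg _)]
    congr 2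
    ring
  have himg : f '' (pt '' Ico (0 : ℝ) 1) = Ico (0 : ℝ) 1 := by
    ext z
    constructor
    · rintro ⟨_, ⟨y, hy, rfl⟩, rfl⟩
      rw [hfpt y hy]; exact hy
    · intro hz
      exact ⟨pt z, ⟨z, hz, rfl⟩, hfpt z hz⟩
  have ht' : 0 < t.toNNReal := Real.toNNReal_pos.mpr ht
  have hdim := hhold.dimH_image_le ht'
  rw [himg, dimH_Ico01] at hdim
  have hsub : pt '' Ico (0 : ℝ) 1 ⊆ limSet (Icc 0 1) φ F := by
    rintro _ ⟨y, hy, rfl⟩
    exact ⟨om y, fun n => hF (hom' n y hy), hpt y⟩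
  refine le_trans ?_ (dimH_mono hsub)
  rw [ENNReal.le_div_iff_mul_le (Or.inl (by simpa using ht)) (Or.inl (by simp)), one_mul] at hdim
  exact hdim

end Pool.Agent.R241.MKV
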