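import Pool.Agent.R241.MKV.M2

/-!
# The concrete system
-/

namespace Pool.Agent.R241.MKV

open Set Filter Topology MeasureTheory ENNReal
open Pool.Agent.R826.CIFS

/-! ### Constants -/

/-- `eps^{1/8}` -/
noncomputable def ce : ℝ := 100 / 2501
/-- `pr^{1/8}` -/
noncomputable def cP : ℝ := 2499 / 2501
/-- the small slope -/
noncomputable def eps : ℝ := ce ^ 8
/-- the large slope -/
noncomputable def pr : ℝ := cP ^ 8
/-- the margin -/
noncomputable def sg : ℝ := 1 / 10000
/-- the left end of the ramp -/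
noncomputable def A0 : ℝ := 1 / 2 - 3 / 10000

theorem eps_pos : 0 < eps := by unfold eps ce; positivity
theorem pr_pos : 0 < pr := by unfold pr cP; positivity
theorem eps_lt : eps < 1 / 1000000 := by unfold eps ce; norm_num
theorem pr_lt : pr < 9937 / 10000 := by unfold pr cP; norm_num
theorem pr_gt : 1 / 2 < pr := by unfold pr cP; norm_num
theorem eps_lt_pr : eps < pr := by linarith [eps_lt, pr_gt]
theorem sum_sq : ce ^ 2 + cP ^ 2 = 1 := by unfold ce cP; norm_num

/-- The equation for `y`. -/
theorem exists_y : ∃ y : ℝ, 4 / 5 < y ∧ y < 1 ∧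
    (49 / 100 : ℝ) ^ 3 * (1 - y) ^ 2 / (1 + y + y ^ 2) =
      (1 - ce ^ 3 - cP ^ 3) / (1 - ce ^ 3 + cP ^ 3) := by
  set K := (1 - ce ^ 3 - cP ^ 3) / (1 - ce ^ 3 + cP ^ 3) with hK
  have hK0 : 0 < K := by
    rw [hK]
    unfold ce cP
    norm_num
  have hK1 : K < (49 / 100 : ℝ) ^ 3 * (1 - 4 / 5) ^ 2 / (1 + 4 / 5 + (4 / 5) ^ 2) := by
    rw [hK]
    unfold ce cP
    norm_num
  have hcont : ContinuousOn
      (fun y : ℝ => (49 / 100 : ℝ) ^ 3 * (1 - y) ^ 2 / (1 + y + y ^ 2)) (Icc (4 / 5) 1) := by
    apply ContinuousOn.div (by fun_prop) (by fun_prop)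
    intro y hy
    have := hy.1
    positivity
  have hivt := intermediate_value_Icc' (by norm_num : (4 / 5 : ℝ) ≤ 1) hcont
  have hmem : K ∈ Icc ((49 / 100 : ℝ) ^ 3 * (1 - 1) ^ 2 / (1 + 1 + 1 ^ 2))
      ((49 / 100 : ℝ) ^ 3 * (1 - 4 / 5) ^ 2 / (1 + 4 / 5 + (4 / 5) ^ 2)) := by
    refine ⟨?_, hK1.le⟩
    norm_num
    exact hK0.le
  obtain ⟨y, hy, hyK⟩ := hivt hmem
  simp only at hyK
  refine ⟨y, ?_, ?_, hyK⟩
  · rcases lt_or_eq_of_le hy.1 with h | h
    · exact h
    · rw [← h] at hyK
      exact absurd hyK hK1.ne'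
  · rcases lt_or_eq_of_le hy.2 with h | h
    · exact h
    · rw [h] at hyK
      norm_num at hyK
      exact absurd hyK hK0.ne

/-- the parameter `y` -/
noncomputable def yy : ℝ := Classical.choose exists_y

theorem yy_gt : 4 / 5 < yy := (Classical.choose_spec exists_y).1
theorem yy_lt : yy < 1 := (Classical.choose_spec exists_y).2.1
theorem yy_eq : (49 / 100 : ℝ) ^ 3 * (1 - yy) ^ 2 / (1 + yy + yy ^ 2) =
      (1 - ce ^ 3 - cP ^ 3) / (1 - ce ^ 3 + cP ^ 3) := (Classical.choose_spec exists_y).2.2

/-- `a^{1/8}` -/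
noncomputable def al : ℝ := (1 - yy) * (49 / 100)
/-- the first ratio of the tail -/
noncomputable def ca : ℝ := al ^ 8
/-- the quotient of the ratios of the tail -/
noncomputable def cq : ℝ := yy ^ 8
/-- the ratios of the tail -/
noncomputable def rr (m : ℕ) : ℝ := ca * cq ^ m

theorem al_pos : 0 < al := by
  unfold al
  have := yy_lt
  apply _root_.mul_pos <;> linarith

theorem al_lt : al < 1 / 10 := by
  unfold al
  have := yy_gt
  linarith

theorem ca_pos : 0 < ca := pow_pos al_pos 8

theorem cq_pos : 0 < cq := pow_pos (by linarith [yy_gt]) 8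

theorem cq_lt : cq < 1 := pow_lt_one₀ (by linarith [yy_gt]) yy_lt (by norm_num)

theorem rr_pos (m : ℕ) : 0 < rr m := mul_pos ca_pos (pow_pos cq_pos m)

theorem sum_bound : ca / (1 - cq) ≤ 1 / 1000000 := by
  have h1 := al_pos
  have h2 := al_lt
  have h3 := yy_lt
  have h4 := yy_gt
  have h5 : cq ≤ yy := by
    unfold cq
    calc yy ^ 8 ≤ yy ^ 1 := pow_le_pow_of_le_one (by linarith) h3.le (by norm_num)
      _ = yy := pow_one _
  have h6 : ca / (1 - cq) ≤ ca / (1 - yy) :=
    div_le_div_of_nonneg_left ca_pos.le (by linarith) (by linarith)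
  have h7 : ca / (1 - yy) = (49 / 100) * al ^ 7 := by
    rw [div_eq_iff (by linarith)]
    unfold ca
    have : al ^ 8 = al ^ 7 * al := pow_succ _ _
    rw [this]
    have h8 : al = (1 - yy) * (49 / 100) := rfl
    nth_rewrite 2 [h8]
    ring
  rw [h7] at h6
  have h9 : al ^ 7 ≤ (1 / 10) ^ 7 := pow_le_pow_left₀ h1.le h2.le 7
  norm_num at h9 ⊢
  linarith

theorem ca_le : ca ≤ 1 / 1000000 := by
  have h1 := sum_bound
  have h2 := cq_lt
  have h3 := cq_pos
  rw [div_le_iff₀ (by linarith)] at h1
  nlinarith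

theorem rr_le (m : ℕ) : rr m ≤ 1 / 1000000 := by
  have : rr m ≤ ca * 1 := by
    unfold rr
    exact mul_le_mul_of_nonneg_left (pow_le_one₀ cq_pos.le cq_lt.le) ca_pos.le
  linarith [ca_le]

/-- the translations of the tail -/
noncomputable def bb (m : ℕ) : ℝ := 1 / 2 - sg + 2 * (ca / (1 - cq)) * (1 - cq ^ m)

theorem bb_succ (m : ℕ) : bb (m + 1) = bb m + 2 * rr m := by
  unfold bb rr
  have : (1 : ℝ) - cq ≠ 0 := by linarith [cq_lt]
  field_simp
  ring

theorem bb_ge (m : ℕ) : 1 / 2 - sg ≤ bb m := by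
  unfold bb
  have h1 : 0 ≤ ca / (1 - cq) := div_nonneg ca_pos.le (by linarith [cq_lt])
  have h2 : cq ^ m ≤ 1 := pow_le_one₀ cq_pos.le cq_lt.le
  have : 0 ≤ 2 * (ca / (1 - cq)) * (1 - cq ^ m) := mul_nonneg (by linarith) (by linarith)
  linarith

theorem bb_le (m : ℕ) : bb m ≤ 1 / 2 - sg + 2 / 1000000 := by
  unfold bb
  have h1 : 0 ≤ ca / (1 - cq) := div_nonneg ca_pos.le (by linarith [cq_lt])
  have h2 : 0 ≤ cq ^ m := pow_nonneg cq_pos.le m
  have h3 : 2 * (ca / (1 - cq)) * (1 - cq ^ m) ≤ 2 * (ca / (1 - cq)) * 1 :=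
    mul_le_mul_of_nonneg_left (by linarith) (by linarith)
  linarith [sum_bound]

theorem bb_mono {m n : ℕ} (hmn : m < n) : bb m + 2 * rr m ≤ bb n := by
  induction n, hmn using Nat.le_induction with
  | base => rw [bb_succ]
  | succ n _ ih =>
    rw [bb_succ]
    linarith [rr_pos n]

/-! ### The map `u1` -/

/-- the square of the positive part -/
noncomputable def sq (x : ℝ) : ℝ := (max 0 x) ^ 2

theorem sq_deriv (x : ℝ) : HasDerivAt sq (2 * max 0 x) x := by
  rcases lt_trichotomy x 0 with h | h | h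
  · have h1 : sq =ᶠ[𝓝 x] fun _ => 0 := by
      filter_upwards [Iio_mem_nhds h] with z hz
      have : max 0 z = 0 := max_eq_left (le_of_lt hz)
      simp [sq, this]
    rw [max_eq_left h.le, mul_zero]
    exact (hasDerivAt_const x (0 : ℝ)).congr_of_eventuallyEq h1
  · subst h
    rw [max_self, mul_zero, hasDerivAt_iff_isLittleO_nhds_zero]
    have h1 : ∀ z : ℝ, sq (0 + z) - sq 0 - z • (0 : ℝ) = (max 0 z) ^ 2 := by
      intro z
      simp [sq]
    simp_rw [h1]
    rw [Asymptotics.isLittleO_iff]
    intro c hc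
    have : ∀ᶠ z : ℝ in 𝓝 0, |z| < c := by
      have := Metric.ball_mem_nhds (0 : ℝ) hc
      filter_upwards [this] with z hz
      simpa [Metric.mem_ball, Real.dist_eq] using hz
    filter_upwards [this] with z hz
    rw [Real.norm_eq_abs, Real.norm_eq_abs, abs_of_nonneg (sq_nonneg _)]
    have h2 : max 0 z ≤ |z| := max_le (abs_nonneg _) (le_abs_self _)
    have h3 : 0 ≤ max 0 z := le_max_left _ _
    calc (max 0 z) ^ 2 ≤ |z| ^ 2 := pow_le_pow_left₀ h3 h2 2
      _ = |z| * |z| := pow_two _
      _ ≤ c * |z| := mul_le_mul_of_nonneg_right hz.le (abs_nonneg _)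
  · have h1 : sq =ᶠ[𝓝 x] fun z => z ^ 2 := by
      filter_upwards [Ioi_mem_nhds h] with z hz
      have : max 0 z = z := max_eq_right (le_of_lt hz)
      simp [sq, this]
    rw [max_eq_right h.le]
    have h2 : HasDerivAt (fun z : ℝ => z ^ 2) (2 * x) x := by
      simpa using hasDerivAt_pow 2 x
    exact h2.congr_of_eventuallyEq h1

/-- the ramp -/
noncomputable def ramp (x : ℝ) : ℝ := (max 0 (x - A0) - max 0 (x - A0 - sg)) / sg

theorem sg_pos : 0 < sg := by unfold sg; norm_num

theorem ramp_nonneg (x : ℝ) : 0 ≤ ramp x := by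
  unfold ramp
  apply div_nonneg _ sg_pos.le
  have := sg_pos
  have h : max 0 (x - A0 - sg) ≤ max 0 (x - A0) := max_le_max le_rfl (by linarith)
  linarith

theorem ramp_le (x : ℝ) : ramp x ≤ 1 := by
  unfold ramp
  rw [div_le_one sg_pos]
  have := sg_pos
  have h : max 0 (x - A0) ≤ max 0 (x - A0 - sg) + sg := by
    apply max_le
    · have := le_max_left 0 (x - A0 - sg)
      linarith
    · have := le_max_right 0 (x - A0 - sg)
      linarith
  linarith

/-- the derivative of `u1` -/
noncomputable def g1 (x : ℝ) : ℝ := eps + (pr - eps) * ramp x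

/-- the first map -/
noncomputable def u1 (x : ℝ) : ℝ :=
  eps * x + (pr - eps) * ((sq (x - A0) - sq (x - A0 - sg)) / (2 * sg))

theorem u1_deriv (x : ℝ) : HasDerivAt u1 (g1 x) x := by
  have h1 : HasDerivAt (fun x => sq (x - A0)) (2 * max 0 (x - A0)) x :=
    (sq_deriv (x - A0)).comp_sub_const x A0
  have h2 : HasDerivAt (fun x => sq (x - A0 - sg)) (2 * max 0 (x - A0 - sg)) x := by
    have h3 : HasDerivAt (fun z => sq (z - sg)) (2 * max 0 (x - A0 - sg)) (x - A0) :=
      (sq_deriv (x - A0 - sg)).comp_sub_const (x - A0) sg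
    exact h3.comp_sub_const x A0
  have h3 := ((hasDerivAt_id x).const_mul eps).add
    (((h1.sub h2).div_const (2 * sg)).const_mul (pr - eps))
  refine HasDerivAt.congr_deriv h3 ?_
  unfold g1 ramp
  have := sg_pos
  field_simp

theorem g1_ge (x : ℝ) : eps ≤ g1 x := by
  unfold g1
  have := mul_nonneg (by linarith [eps_lt_pr] : 0 ≤ pr - eps) (ramp_nonneg x)
  linarith

theorem g1_le (x : ℝ) : g1 x ≤ pr := by
  unfold g1
  have := mul_le_mul_of_nonneg_left (ramp_le x) (by linarith [eps_lt_pr] : 0 ≤ pr - eps)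
  linarith

theorem g1_left {x : ℝ} (hx : x ≤ A0) : g1 x = eps := by
  unfold g1 ramp
  have := sg_pos
  rw [max_eq_left (by linarith : x - A0 ≤ 0), max_eq_left (by linarith : x - A0 - sg ≤ 0)]
  simp

theorem g1_right {x : ℝ} (hx : A0 + sg ≤ x) : g1 x = pr := by
  unfold g1 ramp
  have := sg_pos
  rw [max_eq_right (by linarith : 0 ≤ x - A0), max_eq_right (by linarith : 0 ≤ x - A0 - sg)]
  field_simp
  ring

theorem u1_left {x : ℝ} (hx : x ≤ A0) : u1 x = eps * x := by
  unfold u1 sq
  have := sg_pos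
  rw [max_eq_left (by linarith : x - A0 ≤ 0), max_eq_left (by linarith : x - A0 - sg ≤ 0)]
  simp

theorem u1_right {x : ℝ} (hx : A0 + sg ≤ x) :
    u1 x = eps * x + (pr - eps) * (x - A0 - sg / 2) := by
  unfold u1 sq
  have := sg_pos
  rw [max_eq_right (by linarith : 0 ≤ x - A0), max_eq_right (by linarith : 0 ≤ x - A0 - sg)]
  field_simp
  ring

theorem u1_ge {x y : ℝ} (hxy : x ≤ y) : eps * (y - x) ≤ u1 y - u1 x := by
  have h1 : Monotone fun x => u1 x - eps * x := by
    have hd : ∀ x, HasDerivAt (fun x => u1 x - eps * x) (g1 x - eps) x := fun x =>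
      HasDerivAt.congr_deriv ((u1_deriv x).sub ((hasDerivAt_id x).const_mul eps)) (by ring)
    apply monotone_of_deriv_nonneg
    · intro x
      exact (hd x).differentiableAt
    · intro x
      rw [(hd x).deriv]
      linarith [g1_ge x]
  have := h1 hxy
  simp only at this
  linarith

theorem u1_le {x y : ℝ} (hxy : x ≤ y) : u1 y - u1 x ≤ pr * (y - x) := by
  have h1 : Monotone fun x => pr * x - u1 x := by
    have hd : ∀ x, HasDerivAt (fun x => pr * x - u1 x) (pr - g1 x) x := fun x =>
      HasDerivAt.congr_deriv (((hasDerivAt_id x).const_mul pr).sub (u1_deriv x)) (by ring)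
    apply monotone_of_deriv_nonneg
    · intro x
      exact (hd x).differentiableAt
    · intro x
      rw [(hd x).deriv]
      linarith [g1_le x]
  have := h1 hxy
  simp only at this
  linarith

theorem u1_zero : u1 0 = 0 := by
  rw [u1_left (by unfold A0; norm_num), mul_zero]

theorem u1_one_le : u1 1 ≤ 1 / 2 - 4 * sg := by
  rw [u1_right (by unfold A0 sg; norm_num)]
  have h1 := eps_lt
  have h2 := pr_lt
  have h3 := eps_pos
  unfold A0 sg
  nlinarith

theorem u1_one_pos : 0 < u1 1 := by
  have := u1_ge (zero_le_one (α := ℝ))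
  rw [u1_zero] at this
  linarith [eps_pos]

/-! ### The system -/

/-- the alphabet -/
abbrev EE : Type := Bool ⊕ ℕ

/-- the maps -/
noncomputable def uu : EE → ℝ → ℝ
  | Sum.inl false => u1
  | Sum.inl true => fun x => 1 - u1 (1 - x)
  | Sum.inr m => fun x => rr m * x + bb m

/-- the slopes -/
noncomputable def ww : EE → EE → ℝ
  | Sum.inl i, Sum.inl j => if i = j then eps else pr
  | Sum.inl _, Sum.inr _ => pr
  | Sum.inr m, _ => rr m

/-- the sizes -/
noncomputable def LL : EE → ℝ
  | Sum.inl _ => u1 1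
  | Sum.inr m => rr m

/-- the derivatives -/
noncomputable def dd : EE → ℝ → ℝ
  | Sum.inl false => g1
  | Sum.inl true => fun x => g1 (1 - x)
  | Sum.inr m => fun _ => rr m

theorem uu_deriv (e : EE) (x : ℝ) : HasDerivAt (uu e) (dd e x) x := by
  rcases e with i | m
  · cases i with
    | false => exact u1_deriv x
    | true =>
      have h2 := ((u1_deriv (1 - x)).comp_const_sub 1 x).const_sub 1
      refine HasDerivAt.congr_deriv h2 ?_
      change -(-(g1 (1 - x))) = g1 (1 - x)
      ring
  · have := ((hasDerivAt_id x).const_mul (rr m)).add_const (bb m)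
    refine HasDerivAt.congr_deriv this ?_
    change rr m * 1 = rr m
    ring

/-- the open set `V` -/
def VV : Set ℝ := Ioo (-(1 / 10000)) (1 + 1 / 10000)

theorem sub_VV : Icc (0 : ℝ) 1 ⊆ VV := by
  intro x hx
  exact ⟨by linarith [hx.1], by linarith [hx.2]⟩

theorem u1_VV {x : ℝ} (hx : x ∈ VV) : -(1 / 10000) < u1 x ∧ u1 x < A0 := by
  obtain ⟨h1, h2⟩ := hx
  have he := eps_pos
  have he2 := eps_lt
  have hp := pr_lt
  have hp0 := pr_pos
  constructor
  · have h3 : u1 (-(1 / 10000)) ≤ u1 x := by
      have := u1_ge h1.le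
      have h4 : 0 ≤ eps * (x - -(1 / 10000)) := mul_nonneg he.le (by linarith)
      linarith
    rw [u1_left (by unfold A0; norm_num)] at h3
    nlinarith
  · have h3 : u1 x - u1 (1 + 1 / 10000) ≤ 0 := by
      have := u1_ge h2.le
      have h4 : 0 ≤ eps * (1 + 1 / 10000 - x) := mul_nonneg he.le (by linarith)
      linarith
    have h4 := u1_le (by norm_num : (1 : ℝ) ≤ 1 + 1 / 10000)
    have h5 := u1_one_le
    unfold A0
    unfold sg at h5
    nlinarith

/-- The three regions. -/
theorem region (b : EE) {x : ℝ} (hx : x ∈ VV) :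
    (b = Sum.inl false ∧ -(1 / 10000) < uu b x ∧ uu b x ≤ A0) ∨
    (b = Sum.inl true ∧ 1 - A0 ≤ uu b x ∧ uu b x < 1 + 1 / 10000) ∨
    (∃ m, b = Sum.inr m ∧ A0 + sg ≤ uu b x ∧ uu b x ≤ 1 - A0 - sg) := by
  rcases b with i | m
  · cases i with
    | false =>
      left
      have := u1_VV hx
      exact ⟨rfl, this.1, this.2.le⟩
    | true =>
      right; left
      have h1 : 1 - x ∈ VV := ⟨by linarith [hx.2], by linarith [hx.1]⟩
      have := u1_VV h1
      refine ⟨rfl, ?_, ?_⟩
      · change 1 - A0 ≤ 1 - u1 (1 - x)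
        linarith
      · change 1 - u1 (1 - x) < _
        linarith
  · right; right
    refine ⟨m, rfl, ?_, ?_⟩
    · change A0 + sg ≤ rr m * x + bb m
      have h1 := bb_ge m
      have h2 := rr_pos m
      have h3 := rr_le m
      have h4 : -(1 / 1000000) ≤ rr m * x := by
        have := hx.1
        nlinarith
      unfold A0
      unfold sg at h1 ⊢
      linarith
    · change rr m * x + bb m ≤ 1 - A0 - sg
      have h1 := bb_le m
      have h2 := rr_pos m
      have h3 := rr_le m
      have h4 : rr m * x ≤ 2 / 1000000 := by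
        have := hx.2
        nlinarith
      unfold A0
      unfold sg at h1 ⊢
      linarith

theorem maps_VV (b : EE) {x : ℝ} (hx : x ∈ VV) : uu b x ∈ VV := by
  have hA : A0 = 1 / 2 - 3 / 10000 := rfl
  have hs : sg = 1 / 10000 := rfl
  rcases region b hx with ⟨_, h1, h2⟩ | ⟨_, h1, h2⟩ | ⟨m, _, h1, h2⟩
  · exact ⟨h1, by linarith⟩
  · exact ⟨by linarith, h2⟩
  · exact ⟨by linarith, by linarith⟩

/-- the derivative of `uu a` at the points of `uu b '' V` -/
theorem dd_eq (a b : EE) {x : ℝ} (hx : x ∈ VV) : dd a (uu b x) = ww a b := by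
  have hA : A0 = 1 / 2 - 3 / 10000 := rfl
  have hs : sg = 1 / 10000 := rfl
  rcases a with i | m
  · rcases region b hx with ⟨rfl, h1, h2⟩ | ⟨rfl, h1, h2⟩ | ⟨m, rfl, h1, h2⟩
    · cases i with
      | false =>
        change g1 _ = _
        rw [g1_left h2]
        simp [ww]
      | true =>
        change g1 _ = _
        rw [g1_right (by linarith)]
        simp [ww]
    · cases i with
      | false =>
        change g1 _ = _
        rw [g1_right (by linarith)]
        simp [ww]
      | true =>
        change g1 _ = _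
        rw [g1_left (by linarith)]
        simp [ww]
    · cases i with
      | false =>
        change g1 _ = _
        rw [g1_right (by linarith)]
        rfl
      | true =>
        change g1 _ = _
        rw [g1_right (by linarith)]
        rfl
  · rfl

/-- linearity of `uu a` on `uu b '' V` -/
theorem lin_eq (a b : EE) {x y : ℝ} (hx : x ∈ VV) (hy : y ∈ VV) :
    uu a (uu b x) - uu a (uu b y) = ww a b * (uu b x - uu b y) := by
  have hA : A0 = 1 / 2 - 3 / 10000 := rfl
  have hs : sg = 1 / 10000 := rfl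
  rcases a with i | m
  · rcases b with j | n
    · cases j with
      | false =>
        have hx1 := (u1_VV hx).2
        have hy1 := (u1_VV hy).2
        cases i with
        | false =>
          change u1 (u1 x) - u1 (u1 y) = (if false = false then eps else pr) * (u1 x - u1 y)
          rw [u1_left hx1.le, u1_left hy1.le, if_pos rfl]
          ring
        | true =>
          change (1 - u1 (1 - u1 x)) - (1 - u1 (1 - u1 y)) =
            (if true = false then eps else pr) * (u1 x - u1 y)
          rw [u1_right (x := 1 - u1 x) (by linarith), u1_right (x := 1 - u1 y) (by linarith),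
            if_neg (by decide)]
          ring
      | true =>
        have hx' : 1 - x ∈ VV := ⟨by linarith [hx.2], by linarith [hx.1]⟩
        have hy' : 1 - y ∈ VV := ⟨by linarith [hy.2], by linarith [hy.1]⟩
        have hx1 := (u1_VV hx').2
        have hy1 := (u1_VV hy').2
        cases i with
        | false =>
          change u1 (1 - u1 (1 - x)) - u1 (1 - u1 (1 - y)) =
            (if false = true then eps else pr) * ((1 - u1 (1 - x)) - (1 - u1 (1 - y)))
          rw [u1_right (x := 1 - u1 (1 - x)) (by linarith),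
            u1_right (x := 1 - u1 (1 - y)) (by linarith), if_neg (by decide)]
          ring
        | true =>
          change (1 - u1 (1 - (1 - u1 (1 - x)))) - (1 - u1 (1 - (1 - u1 (1 - y)))) =
            (if true = true then eps else pr) * ((1 - u1 (1 - x)) - (1 - u1 (1 - y)))
          rw [u1_left (x := 1 - (1 - u1 (1 - x))) (by linarith),
            u1_left (x := 1 - (1 - u1 (1 - y))) (by linarith), if_pos rfl]
          ring
    · have h1 : A0 + sg ≤ uu (Sum.inr n) x ∧ uu (Sum.inr n) x ≤ 1 - A0 - sg := by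
        rcases region (Sum.inr n) hx with ⟨h, _⟩ | ⟨h, _⟩ | ⟨m, _, h1, h2⟩
        · exact absurd h (by simp)
        · exact absurd h (by simp)
        · exact ⟨h1, h2⟩
      have h2 : A0 + sg ≤ uu (Sum.inr n) y ∧ uu (Sum.inr n) y ≤ 1 - A0 - sg := by
        rcases region (Sum.inr n) hy with ⟨h, _⟩ | ⟨h, _⟩ | ⟨m, _, h1, h2⟩
        · exact absurd h (by simp)
        · exact absurd h (by simp)
        · exact ⟨h1, h2⟩
      set X := uu (Sum.inr n) x with hX
      set Y := uu (Sum.inr n) y with hY
      cases i with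
      | false =>
        change u1 X - u1 Y = pr * (X - Y)
        rw [u1_right h1.1, u1_right h2.1]
        ring
      | true =>
        change (1 - u1 (1 - X)) - (1 - u1 (1 - Y)) = pr * (X - Y)
        rw [u1_right (x := 1 - X) (by linarith), u1_right (x := 1 - Y) (by linarith)]
        ring
  · change (rr m * uu b x + bb m) - (rr m * uu b y + bb m) = rr m * (uu b x - uu b y)
    ring

theorem ww_pos (a b : EE) : 0 < ww a b := by
  rcases a with i | m
  · rcases b with j | n
    · change 0 < if i = j then eps else pr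
      split_ifs
      · exact eps_pos
      · exact pr_pos
    · exact pr_pos
  · exact rr_pos m

theorem ww_le (a b : EE) : ww a b ≤ pr := by
  rcases a with i | m
  · rcases b with j | n
    · change (if i = j then eps else pr) ≤ pr
      split_ifs
      · exact eps_lt_pr.le
      · exact le_rfl
    · exact le_rfl
  · exact (rr_le m).trans (by linarith [pr_gt])

theorem dd_pos (a : EE) (x : ℝ) : 0 < dd a x := by
  rcases a with i | m
  · cases i with
    | false => exact lt_of_lt_of_le eps_pos (g1_ge x)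
    | true => exact lt_of_lt_of_le eps_pos (g1_ge (1 - x))
  · exact rr_pos m

theorem dd_le (a : EE) (x : ℝ) : dd a x ≤ pr := by
  rcases a with i | m
  · cases i with
    | false => exact g1_le x
    | true => exact g1_le (1 - x)
  · exact (rr_le m).trans (by linarith [pr_gt])

theorem dd_dist (a : EE) (x y : ℝ) : dd a x ≤ pr / eps * dd a y := by
  have he := eps_pos
  have h1 : 1 ≤ pr / eps := by
    rw [le_div_iff₀ he]
    linarith [eps_lt_pr]
  rcases a with i | m
  · have key : ∀ x y, g1 x ≤ pr / eps * g1 y := by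
      intro x y
      calc g1 x ≤ pr := g1_le x
        _ = pr / eps * eps := by field_simp
        _ ≤ pr / eps * g1 y := mul_le_mul_of_nonneg_left (g1_ge y) (by linarith)
    cases i with
    | false => exact key x y
    | true => exact key _ _
  · change rr m ≤ pr / eps * rr m
    nlinarith [rr_pos m]

theorem uu_Icc (b : EE) {x : ℝ} (hx : x ∈ Icc (0 : ℝ) 1) :
    (b = Sum.inl false ∧ 0 ≤ uu b x ∧ uu b x ≤ 1 / 2 - 4 * sg) ∨
    (b = Sum.inl true ∧ 1 / 2 + 4 * sg ≤ uu b x ∧ uu b x ≤ 1) ∨
    (∃ m, b = Sum.inr m ∧ bb m ≤ uu b x ∧ uu b x ≤ bb m + rr m) := by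
  have key : ∀ x ∈ Icc (0 : ℝ) 1, 0 ≤ u1 x ∧ u1 x ≤ 1 / 2 - 4 * sg := by
    intro x hx
    have h1 := u1_ge hx.1
    have h2 := u1_ge hx.2
    rw [u1_zero] at h1
    have h3 : 0 ≤ eps * (x - 0) := mul_nonneg eps_pos.le (by linarith [hx.1])
    have h4 : 0 ≤ eps * (1 - x) := mul_nonneg eps_pos.le (by linarith [hx.2])
    exact ⟨by linarith, by linarith [u1_one_le]⟩
  rcases b with i | m
  · cases i with
    | false =>
      left
      exact ⟨rfl, key x hx⟩
    | true =>
      right; left
      have := key (1 - x) ⟨by linarith [hx.2], by linarith [hx.1]⟩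
      refine ⟨rfl, ?_, ?_⟩
      · change _ ≤ 1 - u1 (1 - x)
        linarith
      · change 1 - u1 (1 - x) ≤ 1
        linarith
  · right; right
    refine ⟨m, rfl, ?_, ?_⟩
    · change bb m ≤ rr m * x + bb m
      linarith [mul_nonneg (rr_pos m).le hx.1]
    · change rr m * x + bb m ≤ bb m + rr m
      have := mul_le_mul_of_nonneg_left hx.2 (rr_pos m).le
      linarith

theorem tail_lt (m : ℕ) : bb m + rr m < 1 / 2 + 4 * sg := by
  have h1 := bb_le m
  have h2 := rr_le m
  unfold sg at *
  linarith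

theorem tail_gt (m : ℕ) : 1 / 2 - 4 * sg < bb m := by
  have h1 := bb_ge m
  unfold sg at *
  linarith

theorem uu_maps (b : EE) : MapsTo (uu b) (Icc 0 1) (Icc 0 1) := by
  intro x hx
  have hs : sg = 1 / 10000 := rfl
  rcases uu_Icc b hx with ⟨_, h1, h2⟩ | ⟨_, h1, h2⟩ | ⟨m, _, h1, h2⟩
  · exact ⟨h1, by linarith⟩
  · exact ⟨by linarith, h2⟩
  · exact ⟨by linarith [tail_gt m], by linarith [tail_lt m]⟩

theorem uu_disj (e e' : EE) (hne : e ≠ e') :
    Disjoint (uu e '' Icc 0 1) (uu e' '' Icc 0 1) := by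
  have hs : sg = 1 / 10000 := rfl
  rw [Set.disjoint_left]
  rintro _ ⟨x, hx, rfl⟩ ⟨y, hy, heq⟩
  have h1 := uu_Icc e hx
  have h2 := uu_Icc e' hy
  rw [heq] at h2
  rcases h1 with ⟨rfl, h3, h4⟩ | ⟨rfl, h3, h4⟩ | ⟨m, rfl, h3, h4⟩ <;>
    rcases h2 with ⟨rfl, h5, h6⟩ | ⟨rfl, h5, h6⟩ | ⟨n, rfl, h5, h6⟩
  · exact hne rfl
  · linarith
  · linarith [tail_gt n]
  · linarith
  · exact hne rfl
  · linarith [tail_lt n]
  · linarith [tail_gt m]
  · linarith [tail_lt m]
  · have hmn : m ≠ n := by
      rintro rfl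
      exact hne rfl
    rcases lt_or_gt_of_ne hmn with h | h
    · have := bb_mono h
      linarith [rr_pos m]
    · have := bb_mono h
      linarith [rr_pos n]

/-- The concrete system is of Markov similarity type. -/
theorem isMS : MS uu ww LL pr eps where
  maps := uu_maps
  cont := fun e => continuous_iff_continuousAt.mpr fun x => (uu_deriv e x).continuousAt
  wpos := ww_pos
  wle := ww_le
  s0 := pr_pos
  s1 := by linarith [pr_lt]
  Lpos := by
    intro e
    rcases e with i | m
    · exact u1_one_pos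
    · exact rr_pos m
  Lle := by
    intro e
    rcases e with i | m
    · change u1 1 ≤ 1
      linarith [u1_one_le, sg_pos]
    · exact (rr_le m).trans (by norm_num)
  κpos := eps_pos
  κle := by linarith [eps_lt]
  lin := fun a b x hx y hy => lin_eq a b (sub_VV hx) (sub_VV hy)
  up := by
    have key : ∀ x ∈ Icc (0 : ℝ) 1, ∀ y ∈ Icc (0 : ℝ) 1, |u1 x - u1 y| ≤ u1 1 := by
      intro x hx y hy
      have h1 := u1_ge hx.1
      have h2 := u1_ge hx.2
      have h3 := u1_ge hy.1
      have h4 := u1_ge hy.2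
      rw [u1_zero] at h1 h3
      have h5 : 0 ≤ eps * (x - 0) := mul_nonneg eps_pos.le (by linarith [hx.1])
      have h6 : 0 ≤ eps * (1 - x) := mul_nonneg eps_pos.le (by linarith [hx.2])
      have h7 : 0 ≤ eps * (y - 0) := mul_nonneg eps_pos.le (by linarith [hy.1])
      have h8 : 0 ≤ eps * (1 - y) := mul_nonneg eps_pos.le (by linarith [hy.2])
      rw [abs_le]
      constructor <;> linarith
    intro e x hx y hy
    rcases e with i | m
    · cases i with
      | false => exact key x hx y hy
      | true =>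
        change |(1 - u1 (1 - x)) - (1 - u1 (1 - y))| ≤ u1 1
        have := key (1 - y) ⟨by linarith [hy.2], by linarith [hy.1]⟩ (1 - x)
          ⟨by linarith [hx.2], by linarith [hx.1]⟩
        have e1 : (1 - u1 (1 - x)) - (1 - u1 (1 - y)) = u1 (1 - y) - u1 (1 - x) := by ring
        rw [e1]
        exact this
    · change |(rr m * x + bb m) - (rr m * y + bb m)| ≤ rr m
      have e1 : (rr m * x + bb m) - (rr m * y + bb m) = rr m * (x - y) := by ring
      rw [e1, abs_mul, abs_of_pos (rr_pos m)]
      have : |x - y| ≤ 1 := by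
        rw [abs_le]
        constructor <;> linarith [hx.1, hx.2, hy.1, hy.2]
      calc rr m * |x - y| ≤ rr m * 1 := mul_le_mul_of_nonneg_left this (rr_pos m).le
        _ = rr m := mul_one _
  low := by
    have key : ∀ x y : ℝ, eps * u1 1 * |x - y| ≤ |u1 x - u1 y| := by
      intro x y
      have h0 : eps * u1 1 ≤ eps := by
        have := u1_one_le
        have h1 := sg_pos
        nlinarith [eps_pos, u1_one_pos]
      refine (mul_le_mul_of_nonneg_right h0 (abs_nonneg _)).trans ?_
      rcases le_total x y with h | h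
      · have h1 := u1_ge h
        have h2 : 0 ≤ eps * (y - x) := mul_nonneg eps_pos.le (by linarith)
        rw [abs_of_nonpos (by linarith : x - y ≤ 0), abs_of_nonpos (by linarith : u1 x - u1 y ≤ 0)]
        linarith
      · have h1 := u1_ge h
        have h2 : 0 ≤ eps * (x - y) := mul_nonneg eps_pos.le (by linarith)
        rw [abs_of_nonneg (by linarith : 0 ≤ x - y), abs_of_nonneg (by linarith : 0 ≤ u1 x - u1 y)]
        linarith
    intro e x hx y hy
    rcases e with i | m
    · cases i with
      | false => exact key x y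
      | true =>
        change eps * u1 1 * |x - y| ≤ |(1 - u1 (1 - x)) - (1 - u1 (1 - y))|
        have := key (1 - y) (1 - x)
        have e1 : (1 - u1 (1 - x)) - (1 - u1 (1 - y)) = u1 (1 - y) - u1 (1 - x) := by ring
        have e2 : x - y = (1 - y) - (1 - x) := by ring
        rw [e1, e2]
        exact this
    · change eps * rr m * |x - y| ≤ |(rr m * x + bb m) - (rr m * y + bb m)|
      have e1 : (rr m * x + bb m) - (rr m * y + bb m) = rr m * (x - y) := by ring
      rw [e1, abs_mul, abs_of_pos (rr_pos m)]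
      apply mul_le_mul_of_nonneg_right _ (abs_nonneg _)
      have := eps_lt
      nlinarith [rr_pos m]
  disj := uu_disj

end Pool.Agent.R241.MKV
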