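import Pool.Agent.R241.MKV.M3
import Pool.Agent.R241.MKV.Defs

/-!
# The concrete system is a conformal iterated function system
-/

namespace Pool.Agent.R241.MKV

open Set Filter Topology MeasureTheory ENNReal
open Pool.Agent.R826.CIFS

/-- The two definitions of the limit set agree for systems of Markov similarity type. -/
theorem limitSet_eq {E : Type} {φ : E → ℝ → ℝ} {w : E → E → ℝ} {L : E → ℝ} {s κ : ℝ}
    (h : MS φ w L s κ) (A : Set E) :
    limitSet (Icc 0 1) φ A = limSet (Icc 0 1) φ A := by
  ext x
  constructor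
  · rintro ⟨ω, hω, hx⟩
    refine ⟨ω, hω, fun n => ?_⟩
    have hclosed : IsClosed (wordMap φ (List.ofFn fun i : Fin n => ω i) '' Icc 0 1) :=
      (isCompact_Icc.image (h.wm_cont _)).isClosed
    have hanti : ∀ k, wordMap φ (List.ofFn fun i : Fin (n + k) => ω i) '' Icc 0 1 ⊆
        wordMap φ (List.ofFn fun i : Fin n => ω i) '' Icc 0 1 := by
      intro k
      induction k with
      | zero => exact Subset.rfl
      | succ k ih =>
        refine Subset.trans ?_ ih
        rintro _ ⟨z, hz, rfl⟩
        refine ⟨φ (ω (n + k)) z, h.maps _ hz, ?_⟩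
        exact (wordMap_ofFn_succ ω (n + k) z).symm
    refine hclosed.mem_of_tendsto (hx 0 (by norm_num)) ?_
    filter_upwards [eventually_ge_atTop n] with k hk
    obtain ⟨j, rfl⟩ := Nat.exists_eq_add_of_le hk
    exact hanti j ⟨0, by norm_num, rfl⟩
  · rintro ⟨ω, hω, hx⟩
    refine ⟨ω, hω, fun x₀ hx₀ => ?_⟩
    rw [← tendsto_add_atTop_iff_nat 1]
    have h1 : Tendsto (fun n : ℕ => s ^ n) atTop (𝓝 0) :=
      tendsto_pow_atTop_nhds_zero_of_lt_one h.s0.le h.s1
    rw [tendsto_iff_dist_tendsto_zero]
    refine squeeze_zero (fun _ => dist_nonneg) (fun n => ?_) h1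
    obtain ⟨z, hz, hzx⟩ := hx (n + 1)
    rw [← hzx, Real.dist_eq, List.ofFn_succ]
    refine (h.wm_up _ _ hx₀ hz).trans ?_
    have := h.rat_le (ω (0 : Fin (n + 1))) (List.ofFn fun i : Fin n => ω (i.succ : Fin (n + 1)))
    rwa [List.length_ofFn] at this

/-- derivatives of compositions along words -/
noncomputable def Dw : List EE → ℝ → ℝ
  | [], _ => 1
  | [a], x => dd a x
  | a :: b :: l, x => ww a b * Dw (b :: l) x

theorem wm_VV (l : List EE) : MapsTo (wordMap uu l) VV VV := by
  induction l with
  | nil => exact fun x hx => hx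
  | cons e l ih => exact fun x hx => maps_VV e (ih hx)

theorem wm_deriv (l : List EE) {x : ℝ} (hx : x ∈ VV) : HasDerivAt (wordMap uu l) (Dw l x) x := by
  induction l with
  | nil => exact hasDerivAt_id x
  | cons a l ih =>
    cases l with
    | nil => exact uu_deriv a x
    | cons b l =>
      have h1 := uu_deriv a (wordMap uu (b :: l) x)
      have h2 : dd a (wordMap uu (b :: l) x) = ww a b := dd_eq a b (wm_VV l hx)
      rw [h2] at h1
      exact HasDerivAt.comp x h1 ih

theorem Dw_pos (l : List EE) (x : ℝ) : 0 < Dw l x := by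
  induction l with
  | nil => exact one_pos
  | cons a l ih =>
    cases l with
    | nil => exact dd_pos a x
    | cons b l => exact _root_.mul_pos (ww_pos a b) ih

theorem one_le_ratio : 1 ≤ pr / eps := by
  rw [le_div_iff₀ eps_pos]
  linarith [eps_lt_pr]

theorem Dw_dist (l : List EE) (x y : ℝ) : Dw l x ≤ pr / eps * Dw l y := by
  induction l with
  | nil =>
    change 1 ≤ pr / eps * 1
    linarith [one_le_ratio]
  | cons a l ih =>
    cases l with
    | nil => exact dd_dist a x y
    | cons b l =>
      change ww a b * Dw (b :: l) x ≤ pr / eps * (ww a b * Dw (b :: l) y)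
      calc ww a b * Dw (b :: l) x ≤ ww a b * (pr / eps * Dw (b :: l) y) :=
            mul_le_mul_of_nonneg_left ih (ww_pos a b).le
        _ = _ := by ring

theorem g1_lip (x y : ℝ) : |g1 x - g1 y| ≤ (pr - eps) * (2 / sg) * |x - y| := by
  have hs := sg_pos
  have h1 : |max 0 (x - A0) - max 0 (y - A0)| ≤ |x - y| := by
    have := abs_max_sub_max_le_abs (x - A0) (y - A0) 0
    rw [max_comm 0, max_comm 0]
    refine this.trans (le_of_eq ?_)
    congr 1
    ring
  have h2 : |max 0 (x - A0 - sg) - max 0 (y - A0 - sg)| ≤ |x - y| := by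
    have := abs_max_sub_max_le_abs (x - A0 - sg) (y - A0 - sg) 0
    rw [max_comm 0, max_comm 0]
    refine this.trans (le_of_eq ?_)
    congr 1
    ring
  have h3 : g1 x - g1 y = (pr - eps) / sg * ((max 0 (x - A0) - max 0 (y - A0)) -
      (max 0 (x - A0 - sg) - max 0 (y - A0 - sg))) := by
    unfold g1 ramp
    field_simp
    ring
  have h4 : 0 ≤ (pr - eps) / sg := div_nonneg (by linarith [eps_lt_pr]) hs.le
  rw [h3, abs_mul, abs_of_nonneg h4]
  calc (pr - eps) / sg * _ ≤ (pr - eps) / sg * (|x - y| + |x - y|) := by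
        apply mul_le_mul_of_nonneg_left _ h4
        exact (abs_sub _ _).trans (add_le_add h1 h2)
    _ = _ := by
        field_simp
        ring

theorem dd_lip (a : EE) (x y : ℝ) : |dd a x - dd a y| ≤ (pr - eps) * (2 / sg) * |x - y| := by
  have hs := sg_pos
  rcases a with i | m
  · cases i with
    | false => exact g1_lip x y
    | true =>
      refine (g1_lip (1 - x) (1 - y)).trans (le_of_eq ?_)
      congr 1
      rw [abs_sub_comm]
      congr 1
      ring
  · change |rr m - rr m| ≤ _
    rw [sub_self, abs_zero]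
    have : 0 ≤ pr - eps := by linarith [eps_lt_pr]
    positivity

theorem dd_cont (a : EE) : Continuous (dd a) := by
  rw [continuous_iff_continuousAt]
  intro x
  rw [Metric.continuousAt_iff]
  intro ε hε
  set K := (pr - eps) * (2 / sg) with hK
  have hs := sg_pos
  have hK0 : 0 ≤ K := by
    have : 0 ≤ pr - eps := by linarith [eps_lt_pr]
    positivity
  refine ⟨ε / (K + 1), by positivity, fun {y} hy => ?_⟩
  rw [Real.dist_eq] at hy ⊢
  refine lt_of_le_of_lt (dd_lip a y x) ?_
  rw [lt_div_iff₀ (by positivity)] at hy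
  have := abs_nonneg (y - x)
  nlinarith

theorem uu_contDiff (a : EE) : ContDiff ℝ 1 (uu a) := by
  rw [contDiff_one_iff_deriv]
  refine ⟨fun x => (uu_deriv a x).differentiableAt, ?_⟩
  have : deriv (uu a) = dd a := funext fun x => (uu_deriv a x).deriv
  rw [this]
  exact dd_cont a

theorem uu_strictMono (a : EE) : StrictMono (uu a) := by
  apply strictMono_of_deriv_pos
  intro x
  rw [(uu_deriv a x).deriv]
  exact dd_pos a x

theorem uu_openMap (a : EE) : IsOpenMap (uu a) := by
  apply isOpenMap_of_hasStrictDerivAt (f' := dd a)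
  · intro x
    have h1 := (uu_contDiff a).contDiffAt (x := x)
    have h2 := h1.hasStrictDerivAt (by norm_num)
    rwa [(uu_deriv a x).deriv] at h2
  · intro x
    exact (dd_pos a x).ne'

theorem isCIFS : IsCIFS (Icc (0 : ℝ) 1) VV uu where
  countable := inferInstance
  nonempty := ⟨0, by norm_num⟩
  compact := isCompact_Icc
  regular := by rw [interior_Icc, closure_Ioo (by norm_num)]
  maps := uu_maps
  openV := isOpen_Ioo
  connV := isConnected_Ioo (by norm_num)
  bddV := Metric.isBounded_Ioo _ _
  sub := sub_VV
  dist := by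
    refine ⟨1 / 10000, by norm_num, fun x hx y hy => ?_⟩
    have hy' : ¬ (-(1 / 10000) < y ∧ y < 1 + 1 / 10000) := hy
    rw [not_and_or, not_lt, not_lt] at hy'
    rcases hy' with h | h
    · rw [abs_of_nonneg (by linarith [hx.1])]
      linarith [hx.1]
    · rw [abs_of_nonpos (by linarith [hx.2])]
      linarith [hx.2]
  mapsV := fun a x hx => maps_VV a hx
  injV := fun a => (uu_strictMono a).injective.injOn
  openImage := fun a => uu_openMap a _ isOpen_Ioo
  smooth := fun a => (uu_contDiff a).contDiffOn
  deriv_ne := by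
    intro a x _
    rw [(uu_deriv a x).deriv]
    exact (dd_pos a x).ne'
  deriv_lip := by
    intro a
    refine ⟨(pr - eps) * (2 / sg), fun x _ y _ => ?_⟩
    rw [(uu_deriv a x).deriv, (uu_deriv a y).deriv]
    exact dd_lip a x y
  cone := by
    refine ⟨1 / 2, by norm_num, fun x hx r hr => ?_⟩
    obtain ⟨hr0, hr1⟩ := hr
    rcases le_total x (1 / 2) with h | h
    · calc ENNReal.ofReal (1 / 2 * r) = volume (Ico x (x + r / 2)) := by
            rw [Real.volume_Ico]
            congr 1
            ring
        _ ≤ volume (Icc (0 : ℝ) 1 ∩ Metric.ball x r) := by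
            apply measure_mono
            intro z hz
            refine ⟨⟨by linarith [hz.1, hx.1], by linarith [hz.2]⟩, ?_⟩
            rw [Metric.mem_ball, Real.dist_eq, abs_of_nonneg (by linarith [hz.1])]
            linarith [hz.2]
    · calc ENNReal.ofReal (1 / 2 * r) = volume (Ioc (x - r / 2) x) := by
            rw [Real.volume_Ioc]
            congr 1
            ring
        _ ≤ volume (Icc (0 : ℝ) 1 ∩ Metric.ball x r) := by
            apply measure_mono
            intro z hz
            refine ⟨⟨by linarith [hz.1], by linarith [hz.2, hx.2]⟩, ?_⟩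
            rw [Metric.mem_ball, Real.dist_eq, abs_of_nonpos (by linarith [hz.2])]
            linarith [hz.1]
  osc := by
    intro a b hab
    exact (uu_disj a b hab).mono (image_mono interior_subset) (image_mono interior_subset)
  contr := by
    refine ⟨pr, by linarith [pr_lt], fun a x _ => ?_⟩
    rw [(uu_deriv a x).deriv, abs_of_pos (dd_pos a x)]
    exact dd_le a x
  small := by
    intro ε hε
    have h1 : Tendsto rr atTop (𝓝 0) := by
      have := (tendsto_pow_atTop_nhds_zero_of_lt_one cq_pos.le cq_lt).const_mul ca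
      rw [mul_zero] at this
      exact this
    obtain ⟨N, hN⟩ := (h1.eventually (gt_mem_nhds hε)).exists_forall_of_atTop
    apply (((Set.finite_univ : (Set.univ : Set Bool).Finite).image Sum.inl).union
      ((Set.finite_lt_nat N).image Sum.inr)).subset
    rintro a ⟨x, _, hx⟩
    rcases a with i | m
    · exact Or.inl ⟨i, trivial, rfl⟩
    · refine Or.inr ⟨m, ?_, rfl⟩
      rw [(uu_deriv _ x).deriv] at hx
      change ε ≤ |rr m| at hx
      rw [abs_of_pos (rr_pos m)] at hx
      by_contra hcon
      have : N ≤ m := by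
        by_contra h
        exact hcon (not_le.mp h)
      linarith [hN m this]
  distortion := by
    refine ⟨pr / eps, one_le_ratio, fun l x hx y hy => ?_⟩
    rw [(wm_deriv l hx).deriv, (wm_deriv l hy).deriv, abs_of_pos (Dw_pos l x),
      abs_of_pos (Dw_pos l y)]
    exact Dw_dist l x y

end Pool.Agent.R241.MKV
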