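import Pool.Agent.R241.MKV.M4

/-!
# The dimension spectrum of the concrete system
-/

namespace Pool.Agent.R241.MKV

open Set Filter Topology MeasureTheory ENNReal
open Pool.Agent.R826.CIFS

/-- the critical function -/
noncomputable def cf (k : ℕ) (t : ℝ) : ℝ := 1 - eps ^ t - ((k : ℝ) - 1) * pr ^ t

theorem eps_rpow_pos (t : ℝ) : 0 < eps ^ t := Real.rpow_pos_of_pos eps_pos t
theorem pr_rpow_pos (t : ℝ) : 0 < pr ^ t := Real.rpow_pos_of_pos pr_pos t
theorem rr_rpow_pos (m : ℕ) (t : ℝ) : 0 < rr m ^ t := Real.rpow_pos_of_pos (rr_pos m) t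

theorem sum_J (J : Finset Bool) (i : Bool) (hi : i ∈ J) (a b : ℝ) :
    ∑ j ∈ J, (if i = j then a else b) = a + ((J.card : ℝ) - 1) * b := by
  classical
  rw [← Finset.add_sum_erase J _ hi, if_pos rfl]
  congr 1
  have h1 : ∀ j ∈ J.erase i, (if i = j then a else b) = b := by
    intro j hj
    rw [if_neg (Finset.ne_of_mem_erase hj).symm]
  rw [Finset.sum_congr rfl h1, Finset.sum_const, Finset.card_erase_of_mem hi, nsmul_eq_mul]
  have : 1 ≤ J.card := Finset.card_pos.mpr ⟨i, hi⟩
  rw [Nat.cast_sub this]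
  push_cast
  ring

theorem ww_rpow_inl (i j : Bool) (t : ℝ) :
    ww (Sum.inl i) (Sum.inl j) ^ t = if i = j then eps ^ t else pr ^ t := by
  change (if i = j then eps else pr) ^ t = _
  split_ifs <;> rfl

/-- Lower bound for finite subsystems. -/
theorem low_dim (J : Finset Bool) (hJ : J.Nonempty) (B : Finset ℕ) {t : ℝ} (ht : 0 < t)
    (hx : cf J.card t ≤ (∑ n ∈ B, rr n ^ t) * (J.card * pr ^ t + cf J.card t)) (F : Set EE)
    (hJF : ∀ i ∈ J, Sum.inl i ∈ F) (hBF : ∀ n ∈ B, Sum.inr n ∈ F) :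
    ENNReal.ofReal t ≤ dimH (limSet (Icc 0 1) uu F) := by
  classical
  set k : ℝ := (J.card : ℝ) with hk
  set x := ∑ n ∈ B, rr n ^ t with hxdef
  have hk1 : 1 ≤ k := by
    rw [hk]
    exact_mod_cast Finset.card_pos.mpr hJ
  have hx0 : 0 ≤ x := Finset.sum_nonneg fun n _ => (rr_rpow_pos n t).le
  have hp := pr_rpow_pos t
  have hcf : cf J.card t = 1 - eps ^ t - (k - 1) * pr ^ t := rfl
  -- the mass of the big letters
  obtain ⟨δ, hδ0, hδ1, hδ2⟩ : ∃ δ : ℝ, 0 < δ ∧ cf J.card t * δ ≤ pr ^ t * x ∧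
      1 ≤ k * δ + x := by
    rcases le_or_gt (cf J.card t) 0 with hc | hc
    · exact ⟨1, one_pos, by nlinarith, by linarith⟩
    · have hD : 0 < k * pr ^ t + cf J.card t := by positivity
      have hx1 : 0 < x := by
        by_contra hcon
        have : x = 0 := le_antisymm (not_lt.mp hcon) hx0
        rw [this, zero_mul] at hx
        linarith
      refine ⟨pr ^ t * x / cf J.card t, div_pos (_root_.mul_pos hp hx1) hc, ?_, ?_⟩
      · rw [mul_div_cancel₀ _ hc.ne']
      · have : k * (pr ^ t * x / cf J.card t) + x =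
            x * (k * pr ^ t + cf J.card t) / cf J.card t := by
          field_simp
        rw [this, le_div_iff₀ hc, one_mul]
        exact hx
  set m : EE → ℝ := Sum.elim (fun _ => δ) (fun n => rr n ^ t) with hm
  have hsum : ∀ (f : EE → ℝ), ∑ b ∈ J.disjSum B, f b =
      ∑ j ∈ J, f (Sum.inl j) + ∑ n ∈ B, f (Sum.inr n) := fun f => Finset.sum_disjSum J B f
  apply lower isMS (J.disjSum B) _ ht m
  · intro a _
    rcases a with i | n
    · exact hδ0
    · exact rr_rpow_pos n t
  · intro a ha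
    rw [hsum]
    rcases a with i | n
    · have hi : i ∈ J := Finset.inl_mem_disjSum.mp ha
      have e1 : ∑ j ∈ J, ww (Sum.inl i) (Sum.inl j) ^ t * m (Sum.inl j) =
          (eps ^ t + (k - 1) * pr ^ t) * δ := by
        simp_rw [ww_rpow_inl]
        change ∑ j ∈ J, (if i = j then eps ^ t else pr ^ t) * δ = _
        rw [← Finset.sum_mul, sum_J J i hi]
      have e2 : ∑ n ∈ B, ww (Sum.inl i) (Sum.inr n) ^ t * m (Sum.inr n) = pr ^ t * x := by
        rw [hxdef, Finset.mul_sum]
        rfl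
      rw [e1, e2]
      change δ ≤ _
      rw [hcf] at hδ1
      linarith
    · have e1 : ∑ j ∈ J, ww (Sum.inr n) (Sum.inl j) ^ t * m (Sum.inl j) =
          rr n ^ t * (k * δ) := by
        change ∑ j ∈ J, rr n ^ t * δ = _
        rw [Finset.sum_const, nsmul_eq_mul]
        ring
      have e2 : ∑ l ∈ B, ww (Sum.inr n) (Sum.inr l) ^ t * m (Sum.inr l) = rr n ^ t * x := by
        rw [hxdef, Finset.mul_sum]
        rfl
      rw [e1, e2, ← mul_add]
      change rr n ^ t ≤ _
      have := mul_le_mul_of_nonneg_left hδ2 (rr_rpow_pos n t).le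
      linarith
  · intro a ha
    rcases a with i | n
    · exact hJF i (Finset.inl_mem_disjSum.mp (Finset.mem_coe.mp ha))
    · exact hBF n (Finset.inr_mem_disjSum.mp (Finset.mem_coe.mp ha))
  · obtain ⟨i, hi⟩ := hJ
    exact ⟨Sum.inl i, Finset.inl_mem_disjSum.mpr hi⟩

/-- the alphabet with big letters `J` and tail letters `B` -/
def alph (J : Finset Bool) (B : Set ℕ) : Set EE := Sum.elim (fun i => i ∈ J) (fun n => n ∈ B)

theorem inl_mem_alph {J : Finset Bool} {B : Set ℕ} {i : Bool} :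
    Sum.inl i ∈ alph J B ↔ i ∈ J := Iff.rfl

theorem inr_mem_alph {J : Finset Bool} {B : Set ℕ} {n : ℕ} :
    Sum.inr n ∈ alph J B ↔ n ∈ B := Iff.rfl

theorem tsum_alph (J : Finset Bool) (B : Set ℕ) (f : EE → ℝ≥0∞) :
    ∑' b, (alph J B).indicator f b =
      ∑ j ∈ J, f (Sum.inl j) + ∑' n, B.indicator (fun n => f (Sum.inr n)) n := by
  classical
  rw [Summable.tsum_sum ENNReal.summable ENNReal.summable]
  congr 1
  · have h1 : ∀ i : Bool, (alph J B).indicator f (Sum.inl i) = if i ∈ J then f (Sum.inl i) else 0 := by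
      intro i
      by_cases hi : i ∈ J
      · rw [indicator_of_mem (inl_mem_alph.mpr hi), if_pos hi]
      · rw [indicator_of_notMem (fun h => hi (inl_mem_alph.mp h)), if_neg hi]
    simp_rw [h1]
    rw [tsum_fintype, Finset.sum_ite_mem, Finset.univ_inter]

/-- Upper bound. -/
theorem up_dim (J : Finset Bool) (hJ : J.Nonempty) (B : Set ℕ) {t x : ℝ} (ht : 0 < t)
    (hB : HasSum (B.indicator fun n => rr n ^ t) x)
    (hx : x * (J.card * pr ^ t + cf J.card t) ≤ cf J.card t) :
    dimH (limSet (Icc 0 1) uu (alph J B)) ≤ ENNReal.ofReal t := by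
  classical
  set k : ℝ := (J.card : ℝ) with hk
  have hk1 : 1 ≤ k := by
    rw [hk]
    exact_mod_cast Finset.card_pos.mpr hJ
  have hx0 : 0 ≤ x := hB.nonneg fun n => indicator_nonneg (fun n _ => (rr_rpow_pos n t).le) n
  have hp := pr_rpow_pos t
  have he := eps_rpow_pos t
  have hcf : cf J.card t = 1 - eps ^ t - (k - 1) * pr ^ t := rfl
  have hk2 : k ≤ 2 := by
    rw [hk]
    have := Finset.card_le_univ J
    rw [Fintype.card_bool] at this
    exact_mod_cast this
  have he1 : eps ^ t < 1 := Real.rpow_lt_one eps_pos.le (by linarith [eps_lt]) ht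
  have hD : 0 < k * pr ^ t + cf J.card t := by
    rw [hcf]
    linarith
  have hx1 : x < 1 := by
    by_contra hcon
    push Not at hcon
    have h1 := mul_le_mul_of_nonneg_right hcon hD.le
    have h2 : 0 < k * pr ^ t := by positivity
    linarith
  set δ := (1 - x) / k with hδ
  have hδ0 : 0 < δ := div_pos (by linarith) (by linarith)
  have hkδ : k * δ = 1 - x := by
    rw [hδ]
    field_simp
  have hδ1 : (eps ^ t + (k - 1) * pr ^ t) * δ + pr ^ t * x ≤ δ := by
    have h1 : k * ((eps ^ t + (k - 1) * pr ^ t) * δ + pr ^ t * x) ≤ k * δ := by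
      have e1 : k * ((eps ^ t + (k - 1) * pr ^ t) * δ + pr ^ t * x) =
          (eps ^ t + (k - 1) * pr ^ t) * (k * δ) + k * (pr ^ t * x) := by ring
      rw [e1, hkδ]
      rw [hcf] at hx
      nlinarith
    exact le_of_mul_le_mul_left h1 (by linarith)
  set m : EE → ℝ≥0∞ := Sum.elim (fun _ => ENNReal.ofReal δ) (fun n => ENNReal.ofReal (rr n ^ t))
    with hm
  have htsum : ∀ c : ℝ, 0 ≤ c →
      ∑' n, B.indicator (fun n => ENNReal.ofReal (c * rr n ^ t)) n = ENNReal.ofReal (c * x) := by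
    intro c hc
    have h1 := hB.mul_left c
    rw [← h1.tsum_eq, ENNReal.ofReal_tsum_of_nonneg _ h1.summable]
    · congr 1
      funext n
      by_cases hn : n ∈ B
      · rw [indicator_of_mem hn, indicator_of_mem hn]
      · rw [indicator_of_notMem hn, indicator_of_notMem hn, mul_zero, ENNReal.ofReal_zero]
    · intro n
      exact mul_nonneg hc (indicator_nonneg (fun n _ => (rr_rpow_pos n t).le) n)
  apply upper isMS (alph J B) ht (c := min 1 δ) (lt_min one_pos hδ0) m
  · intro a _
    rcases a with i | n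
    · change ENNReal.ofReal (min 1 δ * u1 1 ^ t) ≤ ENNReal.ofReal δ
      apply ENNReal.ofReal_le_ofReal
      have h1 : u1 1 ^ t ≤ 1 := Real.rpow_le_one u1_one_pos.le
        (by linarith [u1_one_le, sg_pos]) ht.le
      calc min 1 δ * u1 1 ^ t ≤ δ * 1 :=
            mul_le_mul (min_le_right _ _) h1 (Real.rpow_nonneg u1_one_pos.le t) hδ0.le
        _ = δ := mul_one _
    · change ENNReal.ofReal (min 1 δ * rr n ^ t) ≤ ENNReal.ofReal (rr n ^ t)
      apply ENNReal.ofReal_le_ofReal
      exact mul_le_of_le_one_left (rr_rpow_pos n t).le (min_le_left _ _)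
  · rw [tsum_alph]
    apply ENNReal.add_ne_top.mpr
    constructor
    · exact ENNReal.sum_ne_top.mpr fun j _ => ENNReal.ofReal_ne_top
    · have h1 := htsum 1 zero_le_one
      simp only [one_mul] at h1
      have h2 : (fun n => m (Sum.inr n)) = fun n => ENNReal.ofReal (rr n ^ t) := rfl
      rw [h2, h1]
      exact ENNReal.ofReal_ne_top
  · intro a ha
    rw [tsum_alph]
    rcases a with i | n
    · have hi : i ∈ J := inl_mem_alph.mp ha
      have e1 : ∑ j ∈ J, ENNReal.ofReal (ww (Sum.inl i) (Sum.inl j) ^ t) * m (Sum.inl j) =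
          ENNReal.ofReal ((eps ^ t + (k - 1) * pr ^ t) * δ) := by
        have h1 : ∀ j ∈ J, ENNReal.ofReal (ww (Sum.inl i) (Sum.inl j) ^ t) * m (Sum.inl j) =
            ENNReal.ofReal ((if i = j then eps ^ t else pr ^ t) * δ) := by
          intro j _
          change ENNReal.ofReal (ww (Sum.inl i) (Sum.inl j) ^ t) * ENNReal.ofReal δ = _
          rw [ww_rpow_inl, ← ENNReal.ofReal_mul (by split_ifs <;> positivity)]
        rw [Finset.sum_congr rfl h1, ← ENNReal.ofReal_sum_of_nonneg, ← Finset.sum_mul, sum_J J i hi]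
        intro j _
        apply mul_nonneg _ hδ0.le
        split_ifs <;> positivity
      have e2 : (∑' l, B.indicator (fun l => ENNReal.ofReal (ww (Sum.inl i) (Sum.inr l) ^ t) *
          m (Sum.inr l)) l) = ENNReal.ofReal (pr ^ t * x) := by
        rw [← htsum (pr ^ t) hp.le]
        congr 1
        funext l
        by_cases hl : l ∈ B
        · rw [indicator_of_mem hl, indicator_of_mem hl]
          change ENNReal.ofReal (pr ^ t) * ENNReal.ofReal (rr l ^ t) = _
          rw [← ENNReal.ofReal_mul hp.le]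
        · rw [indicator_of_notMem hl, indicator_of_notMem hl]
      rw [e1, e2, ← ENNReal.ofReal_add]
      · exact ENNReal.ofReal_le_ofReal hδ1
      · apply mul_nonneg _ hδ0.le
        have : 0 ≤ (k - 1) * pr ^ t := mul_nonneg (by linarith) hp.le
        linarith
      · exact mul_nonneg hp.le hx0
    · have hr := rr_rpow_pos n t
      have e1 : ∑ j ∈ J, ENNReal.ofReal (ww (Sum.inr n) (Sum.inl j) ^ t) * m (Sum.inl j) =
          ENNReal.ofReal (rr n ^ t * (k * δ)) := by
        have h1 : ∀ j ∈ J, ENNReal.ofReal (ww (Sum.inr n) (Sum.inl j) ^ t) * m (Sum.inl j) =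
            ENNReal.ofReal (rr n ^ t * δ) := by
          intro j _
          change ENNReal.ofReal (rr n ^ t) * ENNReal.ofReal δ = _
          rw [← ENNReal.ofReal_mul hr.le]
        rw [Finset.sum_congr rfl h1, Finset.sum_const, nsmul_eq_mul, ← ENNReal.ofReal_natCast,
          ← ENNReal.ofReal_mul (by positivity)]
        congr 1
        ring
      have e2 : (∑' l, B.indicator (fun l => ENNReal.ofReal (ww (Sum.inr n) (Sum.inr l) ^ t) *
          m (Sum.inr l)) l) = ENNReal.ofReal (rr n ^ t * x) := by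
        rw [← htsum (rr n ^ t) hr.le]
        congr 1
        funext l
        by_cases hl : l ∈ B
        · rw [indicator_of_mem hl, indicator_of_mem hl]
          change ENNReal.ofReal (rr n ^ t) * ENNReal.ofReal (rr l ^ t) = _
          rw [← ENNReal.ofReal_mul hr.le]
        · rw [indicator_of_notMem hl, indicator_of_notMem hl]
      rw [e1, e2, ← ENNReal.ofReal_add (by positivity) (mul_nonneg hr.le hx0)]
      change _ ≤ ENNReal.ofReal (rr n ^ t)
      apply ENNReal.ofReal_le_ofReal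
      have : rr n ^ t * (k * δ) + rr n ^ t * x = rr n ^ t * (k * δ + x) := by ring
      rw [this, hkδ]
      have : 1 - x + x = 1 := by ring
      rw [this, mul_one]

theorem limSet_mono {A A' : Set EE} (h : A ⊆ A') :
    limSet (Icc 0 1) uu A ⊆ limSet (Icc 0 1) uu A' := by
  rintro x ⟨ω, hω, hx⟩
  exact ⟨ω, fun n => h (hω n), hx⟩

/-! ### Monotonicity of the critical function -/

theorem eps_rpow_lt {t t' : ℝ} (h : t < t') : eps ^ t' < eps ^ t :=
  Real.rpow_lt_rpow_of_exponent_gt eps_pos (by linarith [eps_lt]) h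

theorem pr_rpow_le {t t' : ℝ} (h : t ≤ t') : pr ^ t' ≤ pr ^ t :=
  Real.rpow_le_rpow_of_exponent_ge pr_pos (by linarith [pr_lt]) h

theorem rr_rpow_le (n : ℕ) {t t' : ℝ} (h : t ≤ t') : rr n ^ t' ≤ rr n ^ t :=
  Real.rpow_le_rpow_of_exponent_ge (rr_pos n) (by linarith [rr_le n]) h

theorem cf_lt {k : ℕ} (hk : 1 ≤ k) {t t' : ℝ} (h : t < t') : cf k t < cf k t' := by
  unfold cf
  have h1 := eps_rpow_lt h
  have h2 := pr_rpow_le h.le
  have h3 : (0 : ℝ) ≤ (k : ℝ) - 1 := by
    have : (1 : ℝ) ≤ k := by exact_mod_cast hk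
    linarith
  have h4 := mul_le_mul_of_nonneg_left h2 h3
  linarith

theorem D_pos {k : ℕ} (_hk : 1 ≤ k) {t : ℝ} (ht : 0 < t) : 0 < k * pr ^ t + cf k t := by
  unfold cf
  have he1 : eps ^ t < 1 := Real.rpow_lt_one eps_pos.le (by linarith [eps_lt]) ht
  have hp := pr_rpow_pos t
  linarith

/-- the strict form of the monotonicity -/
theorem crit_lt {k : ℕ} (hk : 1 ≤ k) {t t0 x : ℝ} (_ht : 0 < t) (h : t < t0) (hx0 : 0 ≤ x)
    (hx1 : x < 1) (he : x * (k * pr ^ t0 + cf k t0) = cf k t0) :
    cf k t < x * (k * pr ^ t + cf k t) := by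
  have h1 := cf_lt hk h
  have h2 := pr_rpow_le h.le
  have h3 : (0 : ℝ) ≤ k := Nat.cast_nonneg k
  have h4 : cf k t * (1 - x) < cf k t0 * (1 - x) := mul_lt_mul_of_pos_right h1 (by linarith)
  have h5 : x * k * pr ^ t0 ≤ x * k * pr ^ t :=
    mul_le_mul_of_nonneg_left h2 (mul_nonneg hx0 h3)
  nlinarith

theorem crit_le {k : ℕ} (hk : 1 ≤ k) {t t0 x : ℝ} (ht : 0 < t) (h : t ≤ t0) (hx0 : 0 ≤ x)
    (hx1 : x < 1) (he : x * (k * pr ^ t0 + cf k t0) = cf k t0) :
    cf k t ≤ x * (k * pr ^ t + cf k t) := by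
  rcases lt_or_eq_of_le h with h | h
  · exact (crit_lt hk ht h hx0 hx1 he).le
  · rw [h]
    exact he.ge

/-- the exact dimension -/
theorem exact_dim (J : Finset Bool) (hJ : J.Nonempty) (B : Set ℕ) {t x : ℝ} (ht : 0 < t)
    (hB : HasSum (B.indicator fun n => rr n ^ t) x) (hx1 : x < 1)
    (hx : x * (J.card * pr ^ t + cf J.card t) = cf J.card t) :
    dimH (limSet (Icc 0 1) uu (alph J B)) = ENNReal.ofReal t := by
  classical
  have hk : 1 ≤ J.card := Finset.card_pos.mpr hJ
  have hx0 : 0 ≤ x := hB.nonneg fun n => indicator_nonneg (fun n _ => (rr_rpow_pos n t).le) n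
  apply le_antisymm (up_dim J hJ B ht hB hx.le)
  have hall : ∀ s : ℝ, 0 < s → s < t → ENNReal.ofReal s ≤ dimH (limSet (Icc 0 1) uu (alph J B)) := by
    intro s hs hst
    have h1 := crit_lt hk hs hst hx0 hx1 hx
    have hD := D_pos hk hs
    have h2 : cf J.card s / (J.card * pr ^ s + cf J.card s) < x := by
      rw [div_lt_iff₀ hD]
      exact h1
    obtain ⟨S, hS⟩ := (hB.eventually (lt_mem_nhds h2)).exists
    have h3 : ∑ n ∈ S, B.indicator (fun n => rr n ^ t) n ≤
        ∑ n ∈ S.filter (fun n => n ∈ B), rr n ^ s := by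
      rw [Finset.sum_filter]
      apply Finset.sum_le_sum
      intro n _
      by_cases hn : n ∈ B
      · rw [indicator_of_mem hn, if_pos hn]
        exact rr_rpow_le n hst.le
      · rw [indicator_of_notMem hn, if_neg hn]
    apply low_dim J hJ (S.filter fun n => n ∈ B) hs _ (alph J B) (fun i hi => hi)
      (fun n hn => (Finset.mem_filter.mp hn).2)
    have h4 := lt_of_lt_of_le hS h3
    rw [div_lt_iff₀ hD] at h4
    exact h4.le
  refine le_of_forall_lt fun c hc => ?_
  have hc' : c ≠ ∞ := ne_top_of_lt hc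
  lift c to NNReal using hc'
  have hcs : (c : ℝ) < t := by
    rw [← ENNReal.ofReal_coe_nnreal] at hc
    exact (ENNReal.ofReal_lt_ofReal_iff ht).mp hc
  have hm : (c : ℝ) < (c + t) / 2 := by linarith
  have hm2 : (c + t) / 2 < t := by linarith
  have hm0 : 0 < ((c : ℝ) + t) / 2 := by have := c.coe_nonneg; linarith
  refine lt_of_lt_of_le ?_ (hall _ hm0 hm2)
  rw [← ENNReal.ofReal_coe_nnreal]
  exact (ENNReal.ofReal_lt_ofReal_iff hm0).mpr hm

/-! ### Sums of subfamilies -/

/-- the total sum -/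
noncomputable def RR (t : ℝ) : ℝ := ca ^ t / (1 - cq ^ t)

theorem rr_rpow (n : ℕ) (t : ℝ) : rr n ^ t = ca ^ t * (cq ^ t) ^ n := by
  unfold rr
  rw [Real.mul_rpow ca_pos.le (pow_nonneg cq_pos.le n), ← Real.rpow_natCast, ← Real.rpow_natCast,
    ← Real.rpow_mul cq_pos.le, ← Real.rpow_mul cq_pos.le, mul_comm (n : ℝ) t]

theorem cq_rpow_lt {t : ℝ} (ht : 0 < t) : cq ^ t < 1 := Real.rpow_lt_one cq_pos.le cq_lt ht

theorem hasSum_RR {t : ℝ} (ht : 0 < t) : HasSum (fun n => rr n ^ t) (RR t) := by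
  have h1 := (hasSum_geometric_of_lt_one (Real.rpow_nonneg cq_pos.le t) (cq_rpow_lt ht)).mul_left
    (ca ^ t)
  have h2 : (fun n => rr n ^ t) = fun n => ca ^ t * (cq ^ t) ^ n := funext fun n => rr_rpow n t
  rw [h2, RR, div_eq_mul_inv]
  exact h1

/-- Kakeya's theorem for geometric series with ratio at least `1/2`. -/
theorem kakeya {l x : ℝ} (hl : 1 / 2 ≤ l) (hl1 : l < 1) (hx0 : 0 ≤ x) (hx : x ≤ 1 / (1 - l)) :
    ∃ B : Set ℕ, HasSum (B.indicator fun n => l ^ n) x := by
  classical
  set T : ℝ → ℝ := fun z => if 1 ≤ z then (z - 1) / l else z / l with hT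
  have hl0 : 0 < l := by linarith
  have h1l : 0 < 1 - l := by linarith
  have hTm : ∀ z, 0 ≤ z → z ≤ 1 / (1 - l) → 0 ≤ T z ∧ T z ≤ 1 / (1 - l) := by
    intro z hz0 hz1
    rw [le_div_iff₀ h1l] at hz1
    rw [hT]
    simp only
    split_ifs with h
    · refine ⟨div_nonneg (by linarith) hl0.le, ?_⟩
      rw [le_div_iff₀ h1l, div_mul_eq_mul_div, div_le_one hl0]
      nlinarith
    · push Not at h
      refine ⟨div_nonneg hz0 hl0.le, ?_⟩
      rw [le_div_iff₀ h1l, div_mul_eq_mul_div, div_le_one hl0]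
      nlinarith
  have hTn : ∀ n, 0 ≤ T^[n] x ∧ T^[n] x ≤ 1 / (1 - l) := by
    intro n
    induction n with
    | zero => exact ⟨hx0, hx⟩
    | succ n ih =>
      rw [Function.iterate_succ_apply']
      exact hTm _ ih.1 ih.2
  set B : Set ℕ := {n | 1 ≤ T^[n] x} with hB
  have hstep : ∀ n, l ^ n * T^[n] x = B.indicator (fun n => l ^ n) n + l ^ (n + 1) * T^[n + 1] x := by
    intro n
    rw [Function.iterate_succ_apply']
    by_cases h : 1 ≤ T^[n] x
    · have e1 : T (T^[n] x) = (T^[n] x - 1) / l := by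
        rw [hT]
        exact if_pos h
      rw [indicator_of_mem (show n ∈ B from h), e1, pow_succ]
      field_simp
      ring
    · have e1 : T (T^[n] x) = T^[n] x / l := by
        rw [hT]
        exact if_neg h
      rw [indicator_of_notMem (show n ∉ B from h), e1, pow_succ]
      field_simp
      ring
  have hpart : ∀ n, x = ∑ i ∈ Finset.range n, B.indicator (fun n => l ^ n) i + l ^ n * T^[n] x := by
    intro n
    induction n with
    | zero => simp
    | succ n ih =>
      rw [Finset.sum_range_succ, add_assoc, ← hstep n]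
      exact ih
  refine ⟨B, ?_⟩
  rw [hasSum_iff_tendsto_nat_of_nonneg]
  · have h1 : Tendsto (fun n => x - l ^ n * T^[n] x) atTop (𝓝 (x - 0)) := by
      apply Filter.Tendsto.sub tendsto_const_nhds
      have h2 : Tendsto (fun n : ℕ => l ^ n * (1 / (1 - l))) atTop (𝓝 0) := by
        have := (tendsto_pow_atTop_nhds_zero_of_lt_one hl0.le hl1).mul_const (1 / (1 - l))
        rwa [zero_mul] at this
      refine squeeze_zero (fun n => mul_nonneg (pow_nonneg hl0.le n) (hTn n).1) (fun n => ?_) h2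
      exact mul_le_mul_of_nonneg_left (hTn n).2 (pow_nonneg hl0.le n)
    rw [sub_zero] at h1
    refine h1.congr fun n => ?_
    have := hpart n
    linarith
  · intro n
    exact indicator_nonneg (fun n _ => pow_nonneg hl0.le n) n

theorem cq_rpow_38 : cq ^ (3 / 8 : ℝ) = yy ^ 3 := by
  have hy : 0 ≤ yy := by linarith [yy_gt]
  unfold cq
  rw [← Real.rpow_natCast yy 8, ← Real.rpow_mul hy, ← Real.rpow_natCast yy 3]
  congr 1
  norm_num

theorem cq_rpow_ge {t : ℝ} (ht : t ≤ 3 / 8) : 1 / 2 ≤ cq ^ t := by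
  have h1 : cq ^ (3 / 8 : ℝ) ≤ cq ^ t :=
    Real.rpow_le_rpow_of_exponent_ge cq_pos cq_lt.le ht
  rw [cq_rpow_38] at h1
  have h2 : (4 / 5 : ℝ) ^ 3 ≤ yy ^ 3 := pow_le_pow_left₀ (by norm_num) yy_gt.le 3
  norm_num at h2
  linarith

theorem sub_sum {t x : ℝ} (ht0 : 0 < t) (ht : t ≤ 3 / 8) (hx0 : 0 ≤ x) (hx : x ≤ RR t) :
    ∃ B : Set ℕ, HasSum (B.indicator fun n => rr n ^ t) x := by
  have ha : 0 < ca ^ t := Real.rpow_pos_of_pos ca_pos t
  obtain ⟨B, hB⟩ := kakeya (cq_rpow_ge ht) (cq_rpow_lt ht0) (div_nonneg hx0 ha.le)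
    (show x / ca ^ t ≤ 1 / (1 - cq ^ t) by
      rw [div_le_iff₀ ha, div_mul_eq_mul_div, one_mul]
      exact hx)
  refine ⟨B, ?_⟩
  have h1 := hB.mul_left (ca ^ t)
  rw [mul_div_cancel₀ _ ha.ne'] at h1
  have h2 : (B.indicator fun n => rr n ^ t) =
      fun i => ca ^ t * B.indicator (fun n => (cq ^ t) ^ n) i := by
    funext n
    by_cases hn : n ∈ B
    · rw [indicator_of_mem hn, indicator_of_mem hn, rr_rpow]
    · rw [indicator_of_notMem hn, indicator_of_notMem hn, mul_zero]
  rw [h2]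
  exact h1

theorem RR_anti {t t' : ℝ} (ht : 0 < t) (h : t ≤ t') : RR t' ≤ RR t :=
  hasSum_le (fun n => rr_rpow_le n h) (hasSum_RR (by linarith)) (hasSum_RR ht)

/-! ### The special values -/

theorem pow8 {z : ℝ} (hz : 0 ≤ z) (n : ℕ) : (z ^ 8) ^ ((n : ℝ) / 8) = z ^ n := by
  rw [← Real.rpow_natCast z 8, ← Real.rpow_mul hz, ← Real.rpow_natCast z n]
  congr 1
  push_cast
  ring

theorem ce_nonneg : 0 ≤ ce := by unfold ce; norm_num
theorem cP_nonneg : 0 ≤ cP := by unfold cP; norm_num

theorem RR_18 : RR (1 / 8) = 49 / 100 := by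
  have h1 : ca ^ (1 / 8 : ℝ) = al := by
    have := pow8 al_pos.le 1
    simpa [ca] using this
  have h2 : cq ^ (1 / 8 : ℝ) = yy := by
    have := pow8 (by linarith [yy_gt] : 0 ≤ yy) 1
    simpa [cq] using this
  unfold RR
  rw [h1, h2]
  unfold al
  have : (1 : ℝ) - yy ≠ 0 := by linarith [yy_lt]
  field_simp

theorem crit_18 : (49 / 100 : ℝ) * ((1 : ℕ) * pr ^ (1 / 8 : ℝ) + cf 1 (1 / 8)) = cf 1 (1 / 8) := by
  have h1 : eps ^ (1 / 8 : ℝ) = ce := by
    have := pow8 ce_nonneg 1
    simpa [eps] using this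
  have h2 : pr ^ (1 / 8 : ℝ) = cP := by
    have := pow8 cP_nonneg 1
    simpa [pr] using this
  unfold cf
  rw [h1, h2]
  unfold ce cP
  norm_num

theorem cf_14 : cf 2 (1 / 4) = 0 := by
  have h1 : eps ^ (1 / 4 : ℝ) = ce ^ 2 := by
    have := pow8 ce_nonneg 2
    rw [show ((2 : ℕ) : ℝ) / 8 = 1 / 4 by norm_num] at this
    exact this
  have h2 : pr ^ (1 / 4 : ℝ) = cP ^ 2 := by
    have := pow8 cP_nonneg 2
    rw [show ((2 : ℕ) : ℝ) / 8 = 1 / 4 by norm_num] at this
    exact this
  unfold cf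
  rw [h1, h2]
  have := sum_sq
  push_cast
  linarith

theorem crit_38 : RR (3 / 8) < 1 ∧
    RR (3 / 8) * ((2 : ℕ) * pr ^ (3 / 8 : ℝ) + cf 2 (3 / 8)) = cf 2 (3 / 8) := by
  have h1 : eps ^ (3 / 8 : ℝ) = ce ^ 3 := by
    have := pow8 ce_nonneg 3
    push_cast at this
    exact this
  have h2 : pr ^ (3 / 8 : ℝ) = cP ^ 3 := by
    have := pow8 cP_nonneg 3
    push_cast at this
    exact this
  have h3 : ca ^ (3 / 8 : ℝ) = al ^ 3 := by
    have := pow8 al_pos.le 3
    push_cast at this
    exact this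
  have hy0 := yy_gt
  have hy1 := yy_lt
  have h4 : RR (3 / 8) = (1 - ce ^ 3 - cP ^ 3) / (1 - ce ^ 3 + cP ^ 3) := by
    rw [← yy_eq]
    unfold RR
    rw [h3, cq_rpow_38]
    have h5 : 1 - yy ^ 3 = (1 - yy) * (1 + yy + yy ^ 2) := by ring
    rw [h5]
    unfold al
    have h6 : (1 : ℝ) - yy ≠ 0 := by linarith
    have h7 : (1 : ℝ) + yy + yy ^ 2 ≠ 0 := by positivity
    field_simp
  have hden : 0 < 1 - ce ^ 3 + cP ^ 3 := by
    unfold ce cP
    norm_num
  constructor
  · rw [h4, div_lt_one hden]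
    have : 0 < cP ^ 3 := by
      unfold cP
      norm_num
    linarith
  · rw [h4]
    unfold cf
    rw [h1, h2]
    have e1 : (((2 : ℕ) : ℝ) * cP ^ 3 + (1 - ce ^ 3 - (((2 : ℕ) : ℝ) - 1) * cP ^ 3)) =
        1 - ce ^ 3 + cP ^ 3 := by
      push_cast
      ring
    rw [e1, div_mul_cancel₀ _ hden.ne']
    push_cast
    ring

/-- attained values -/
theorem attained {J : Finset Bool} (hJ : J.Nonempty) {t t0 x0 : ℝ} (ht : 0 < t) (htt : t ≤ t0)
    (ht0 : t0 ≤ 3 / 8) (hx0 : 0 ≤ x0) (hx1 : x0 < 1)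
    (he : x0 * (J.card * pr ^ t0 + cf J.card t0) = cf J.card t0) (hR : x0 ≤ RR t0)
    (hc : 0 ≤ cf J.card t) :
    ∃ A : Set EE, dimH (limSet (Icc 0 1) uu A) = ENNReal.ofReal t := by
  have hk : 1 ≤ J.card := Finset.card_pos.mpr hJ
  have hD := D_pos hk ht
  have hp := pr_rpow_pos t
  have h1 := crit_le hk ht htt hx0 hx1 he
  set x := cf J.card t / (J.card * pr ^ t + cf J.card t) with hx
  have hx2 : x * (J.card * pr ^ t + cf J.card t) = cf J.card t := div_mul_cancel₀ _ hD.ne'
  have hx3 : 0 ≤ x := div_nonneg hc hD.le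
  have hx4 : x ≤ x0 := by
    rw [hx, div_le_iff₀ hD]
    exact h1
  obtain ⟨B, hB⟩ := sub_sum ht (htt.trans ht0) hx3
    (hx4.trans (hR.trans (RR_anti ht htt)))
  exact ⟨alph J B, exact_dim J hJ B ht hB (by linarith) hx2⟩

theorem cf_one_nonneg {t : ℝ} (ht : 0 < t) : 0 ≤ cf 1 t := by
  unfold cf
  have he1 : eps ^ t < 1 := Real.rpow_lt_one eps_pos.le (by linarith [eps_lt]) ht
  push_cast
  linarith

/-- The dimension spectrum of the concrete system. -/
theorem spectrum : DS (Icc (0 : ℝ) 1) uu = Icc 0 (1 / 8) ∪ Icc (1 / 4) (3 / 8) := by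
  ext t
  constructor
  · rintro ⟨ht, A, hA⟩
    rw [limitSet_eq isMS] at hA
    have hofReal : ∀ {a b : ℝ}, 0 ≤ b → ENNReal.ofReal a ≤ ENNReal.ofReal b → a ≤ b := by
      intro a b hb h
      exact (ENNReal.ofReal_le_ofReal_iff hb).mp h
    by_cases hboth : Sum.inl false ∈ A ∧ Sum.inl true ∈ A
    · right
      constructor
      · apply hofReal ht
        rw [← hA]
        apply low_dim Finset.univ ⟨true, Finset.mem_univ _⟩ ∅ (by norm_num)
        · rw [Finset.sum_empty, zero_mul, Finset.card_univ, Fintype.card_bool, cf_14]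
        · intro i _
          cases i
          · exact hboth.1
          · exact hboth.2
        · intro n hn
          exact absurd hn (Finset.notMem_empty n)
      · apply hofReal (by norm_num)
        rw [← hA]
        refine (dimH_mono (limSet_mono (A' := alph Finset.univ Set.univ) ?_)).trans ?_
        · intro a _
          rcases a with i | n
          · exact Finset.mem_univ i
          · exact Set.mem_univ n
        · apply up_dim Finset.univ ⟨true, Finset.mem_univ _⟩ Set.univ (x := RR (3 / 8)) (by norm_num)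
          · rw [indicator_univ]
            exact hasSum_RR (by norm_num)
          · rw [Finset.card_univ, Fintype.card_bool]
            exact crit_38.2.le
    · left
      refine ⟨ht, ?_⟩
      obtain ⟨i, hi⟩ : ∃ i : Bool, Sum.inl (!i) ∉ A := by
        rw [not_and_or] at hboth
        rcases hboth with h | h
        · exact ⟨true, h⟩
        · exact ⟨false, h⟩
      apply hofReal (by norm_num)
      rw [← hA]
      refine (dimH_mono (limSet_mono (A' := alph {i} Set.univ) ?_)).trans ?_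
      · intro a ha
        rcases a with j | n
        · rw [inl_mem_alph, Finset.mem_singleton]
          by_contra hne
          apply hi
          have : j = !i := by
            cases i <;> cases j <;> simp_all
          rw [← this]
          exact ha
        · exact Set.mem_univ n
      · apply up_dim {i} ⟨i, Finset.mem_singleton_self i⟩ Set.univ (x := RR (1 / 8)) (by norm_num)
        · rw [indicator_univ]
          exact hasSum_RR (by norm_num)
        · rw [Finset.card_singleton, RR_18]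
          exact crit_18.le
  · have key : ∀ t : ℝ, 0 ≤ t → (∃ A : Set EE, dimH (limSet (Icc 0 1) uu A) = ENNReal.ofReal t) →
        t ∈ DS (Icc (0 : ℝ) 1) uu := by
      rintro t ht ⟨A, hA⟩
      refine ⟨ht, A, ?_⟩
      rw [limitSet_eq isMS]
      exact hA
    rintro (⟨h0, h1⟩ | ⟨h0, h1⟩)
    · apply key t h0
      rcases eq_or_lt_of_le h0 with rfl | h0
      · refine ⟨∅, ?_⟩
        have : limSet (Icc 0 1) uu ∅ = ∅ := by
          ext x
          simp only [mem_empty_iff_false, iff_false]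
          rintro ⟨ω, hω, _⟩
          exact hω 0
        rw [this, dimH_empty, ENNReal.ofReal_zero]
      · apply attained (J := {true}) ⟨true, Finset.mem_singleton_self _⟩ h0 h1 (by norm_num)
          (x0 := 49 / 100) (by norm_num) (by norm_num)
        · rw [Finset.card_singleton]
          exact crit_18
        · rw [RR_18]
        · rw [Finset.card_singleton]
          exact cf_one_nonneg h0
    · have ht0 : 0 < t := by linarith
      apply key t ht0.le
      apply attained (J := Finset.univ) ⟨true, Finset.mem_univ _⟩ ht0 h1 le_rfl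
        (x0 := RR (3 / 8)) _ crit_38.1
      · rw [Finset.card_univ, Fintype.card_bool]
        exact crit_38.2
      · exact le_rfl
      · rw [Finset.card_univ, Fintype.card_bool, ← cf_14]
        rcases eq_or_lt_of_le h0 with rfl | h0
        · exact le_rfl
        · exact (cf_lt (by norm_num) h0).le
      · exact (hasSum_RR (by norm_num)).nonneg fun n => (rr_rpow_pos n _).le

end Pool.Agent.R241.MKV
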